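import Mathlib

/-! Product measures of i.i.d. costs: expectations of products of step functions. -/

open MeasureTheory ProbabilityTheory Finset Filter
open scoped Topology

namespace Pool.Agent.V11328.MK

/-- Step function with two thresholds. -/
noncomputable def stp (a b α β γ t : ℝ) : ℝ := if t ≤ a then α else if t ≤ b then β else γ

lemma stp_eq {a b : ℝ} (hab : a ≤ b) (α β γ : ℝ) :
    stp a b α β γ = fun t => (Set.Iic a).indicator (fun _ => α) t +
      (Set.Ioc a b).indicator (fun _ => β) t + (Set.Ioi b).indicator (fun _ => γ) t := by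
  funext t
  unfold stp
  by_cases h1 : t ≤ a
  · have h2 : t ≤ b := h1.trans hab
    simp [Set.indicator, h1, h2, not_lt.2 h1, not_lt.2 h2]
  · by_cases h2 : t ≤ b
    · simp [Set.indicator, h1, h2, not_le.1 h1, not_lt.2 h2]
    · simp [Set.indicator, h1, h2, not_le.1 h2]

lemma stp_nonneg {a b α β γ : ℝ} (h1 : 0 ≤ α) (h2 : 0 ≤ β) (h3 : 0 ≤ γ) (t : ℝ) :
    0 ≤ stp a b α β γ t := by
  unfold stp
  split_ifs <;> assumption

variable (ν : Measure ℝ) [IsProbabilityMeasure ν]

lemma integrable_stp {a b : ℝ} (hab : a ≤ b) (α β γ : ℝ) : Integrable (stp a b α β γ) ν := by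
  rw [stp_eq hab]
  refine ((Integrable.indicator (integrable_const _) measurableSet_Iic).add
    (Integrable.indicator (integrable_const _) measurableSet_Ioc)).add
    (Integrable.indicator (integrable_const _) measurableSet_Ioi)

lemma integral_stp {a b : ℝ} (hab : a ≤ b) (α β γ : ℝ) :
    ∫ t, stp a b α β γ t ∂ν =
      ν.real (Set.Iic a) * α + (ν.real (Set.Iic b) - ν.real (Set.Iic a)) * β +
        (1 - ν.real (Set.Iic b)) * γ := by
  rw [stp_eq hab, integral_add, integral_add, integral_indicator_const _ measurableSet_Iic,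
    integral_indicator_const _ measurableSet_Ioc, integral_indicator_const _ measurableSet_Ioi]
  · have h1 : ν.real (Set.Ioc a b) = ν.real (Set.Iic b) - ν.real (Set.Iic a) := by
      rw [← Set.Iic_sdiff_Iic, measureReal_sdiff (Set.Iic_subset_Iic.2 hab) measurableSet_Iic]
    have h2 : ν.real (Set.Ioi b) = 1 - ν.real (Set.Iic b) := by
      rw [← Set.compl_Iic, probReal_compl_eq_one_sub measurableSet_Iic]
    rw [h1, h2]
    simp
  · exact Integrable.indicator (integrable_const _) measurableSet_Iic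
  · exact Integrable.indicator (integrable_const _) measurableSet_Ioc
  · exact (Integrable.indicator (integrable_const _) measurableSet_Iic).add
      (Integrable.indicator (integrable_const _) measurableSet_Ioc)
  · exact Integrable.indicator (integrable_const _) measurableSet_Ioi

variable {ι : Type*} [Fintype ι]

/-- The product measure. -/
noncomputable abbrev P (ι : Type*) [Fintype ι] (ν : Measure ℝ) : Measure (ι → ℝ) :=
  Measure.pi (fun _ : ι => ν)

lemma integrable_prod {a b : ℝ} (hab : a ≤ b) (α β γ : ι → ℝ) :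
    Integrable (fun x : ι → ℝ => ∏ e, stp a b (α e) (β e) (γ e) (x e)) (P ι ν) :=
  Integrable.fintype_prod (fun e => integrable_stp ν hab (α e) (β e) (γ e))

lemma integral_prod' {a b : ℝ} (hab : a ≤ b) (α β γ : ι → ℝ) :
    ∫ x, ∏ e, stp a b (α e) (β e) (γ e) (x e) ∂(P ι ν) =
      ∏ e, (ν.real (Set.Iic a) * α e + (ν.real (Set.Iic b) - ν.real (Set.Iic a)) * β e +
        (1 - ν.real (Set.Iic b)) * γ e) := by
  rw [integral_fintype_prod_eq_prod]
  exact Finset.prod_congr rfl fun e _ => integral_stp ν hab _ _ _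

/-- Markov's inequality. -/
lemma markov {Ω : Type*} [MeasurableSpace Ω] (μ : Measure Ω) [IsProbabilityMeasure μ] {A : Set Ω}
    {f : Ω → ℝ} (hf : Integrable f μ) (h0 : ∀ x, 0 ≤ f x) (hA : ∀ x ∈ A, 1 ≤ f x) :
    μ.real A ≤ ∫ x, f x ∂μ := by
  have h := mul_meas_ge_le_integral_of_nonneg (μ := μ) (ae_of_all _ h0) hf 1
  rw [one_mul] at h
  exact (measureReal_mono (fun x hx => hA x hx)).trans h

/-- Exponential Markov bound in product form. -/
lemma prob_le {a b : ℝ} (hab : a ≤ b) (α β γ : ι → ℝ) (h1 : ∀ e, 0 ≤ α e) (h2 : ∀ e, 0 ≤ β e)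
    (h3 : ∀ e, 0 ≤ γ e) {K : ℝ} (hK : 0 ≤ K) (A : Set (ι → ℝ))
    (hA : ∀ x ∈ A, 1 ≤ K * ∏ e, stp a b (α e) (β e) (γ e) (x e)) :
    (P ι ν).real A ≤ K *
      ∏ e, (ν.real (Set.Iic a) * α e + (ν.real (Set.Iic b) - ν.real (Set.Iic a)) * β e +
        (1 - ν.real (Set.Iic b)) * γ e) := by
  rw [← integral_prod' ν hab, ← integral_const_mul]
  refine markov _ ((integrable_prod ν hab α β γ).const_mul K) (fun x => ?_) hA
  exact mul_nonneg hK (Finset.prod_nonneg fun e _ => stp_nonneg (h1 e) (h2 e) (h3 e) _)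

lemma exp_real_Iic {r : ℝ} (hr : 0 < r) {p : ℝ} (hp0 : 0 ≤ p) (hp1 : p < 1) :
    (expMeasure r).real (Set.Iic (-Real.log (1 - p) / r)) = p := by
  have := isProbabilityMeasure_expMeasure hr
  rw [← cdf_eq_real, cdf_expMeasure_eq hr, if_pos]
  · have : -(r * (-Real.log (1 - p) / r)) = Real.log (1 - p) := by
      field_simp
    rw [this, Real.exp_log (by linarith)]
    ring
  · have : Real.log (1 - p) ≤ 0 := Real.log_nonpos (by linarith) (by linarith)
    exact div_nonneg (by linarith) hr.le

lemma exp_thr_mono {r : ℝ} (hr : 0 < r) {p q : ℝ} (hpq : p ≤ q) (hq : q < 1) :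
    -Real.log (1 - p) / r ≤ -Real.log (1 - q) / r := by
  have : Real.log (1 - q) ≤ Real.log (1 - p) := Real.log_le_log (by linarith) (by linarith)
  gcongr

end Pool.Agent.V11328.MK
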