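import Mathlib

/-! The mutual preference graph: deterministic facts. -/

open Finset

namespace Pool.Agent.V11328.MK

variable {n : ℕ}

open scoped Classical in
/-- `i` prefers `j`: fewer than `k` of the edges at `i` are cheaper than the edge `ij`. -/
def Prefers (k : ℕ) (x : Sym2 (Fin n) → ℝ) (i j : Fin n) : Prop :=
  #{l : Fin n | l ≠ i ∧ x s(i, l) < x s(i, j)} < k

/-- The mutual preference graph for the costs `x` and the potential degree `k`. -/
def mutualPref (k : ℕ) (x : Sym2 (Fin n) → ℝ) : SimpleGraph (Fin n) where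
  Adj i j := i ≠ j ∧ Prefers k x i j ∧ Prefers k x j i
  symm := ⟨fun _ _ h => ⟨h.1.symm, h.2.2, h.2.1⟩⟩
  loopless := ⟨fun _ h => h.1 rfl⟩

open scoped Classical in
/-- Neighbours at cost at most `a`. -/
noncomputable def nb (x : Sym2 (Fin n) → ℝ) (a : ℝ) (v : Fin n) : Finset (Fin n) :=
  univ.filter fun l => l ≠ v ∧ x s(v, l) ≤ a

lemma mem_nb {x : Sym2 (Fin n) → ℝ} {a : ℝ} {v l : Fin n} :
    l ∈ nb x a v ↔ l ≠ v ∧ x s(v, l) ≤ a := by
  simp [nb]

lemma prefers_of_normal {k : ℕ} {x : Sym2 (Fin n) → ℝ} {a : ℝ} {v j : Fin n}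
    (h : #(nb x a v) ≤ k) (hj : j ∈ nb x a v) : Prefers k x v j := by
  classical
  unfold Prefers
  refine lt_of_lt_of_le ?_ h
  refine Finset.card_lt_card ?_
  rw [Finset.ssubset_iff_of_subset]
  · exact ⟨j, hj, by simp⟩
  · intro l hl
    rw [mem_nb] at hj ⊢
    simp only [mem_filter, mem_univ, true_and] at hl
    exact ⟨hl.1, hl.2.le.trans hj.2⟩

/-- Abnormal neighbours. -/
noncomputable def abn (k : ℕ) (x : Sym2 (Fin n) → ℝ) (a : ℝ) (v : Fin n) : Finset (Fin n) :=
  (nb x a v).filter fun b => k < #(nb x a b)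

lemma exists_normal {k C : ℕ} (hC : C < k) {x : Sym2 (Fin n) → ℝ} {a : ℝ} {v : Fin n}
    (hv : k < #(nb x a v)) (h : #(abn k x a v) ≤ C) :
    ∃ u, (mutualPref k x).Adj v u ∧ #(nb x a u) ≤ k := by
  classical
  have hne : ((nb x a v).filter fun b => #(nb x a b) ≤ k).Nonempty := by
    by_contra hcon
    rw [Finset.not_nonempty_iff_eq_empty, Finset.filter_eq_empty_iff] at hcon
    have : abn k x a v = nb x a v := by
      unfold abn
      rw [Finset.filter_eq_self]
      intro b hb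
      exact not_le.1 (hcon hb)
    rw [this] at h
    omega
  obtain ⟨u, hu, hmin⟩ := Finset.exists_min_image _ (fun b => x s(v, b)) hne
  rw [mem_filter] at hu
  refine ⟨u, ⟨?_, ?_, ?_⟩, hu.2⟩
  · rintro rfl
    exact (mem_nb.1 hu.1).1 rfl
  · unfold Prefers
    refine lt_of_le_of_lt (Finset.card_le_card ?_) (lt_of_le_of_lt h hC)
    intro l hl
    simp only [mem_filter, mem_univ, true_and] at hl
    have hl2 : l ∈ nb x a v := mem_nb.2 ⟨hl.1, hl.2.le.trans (mem_nb.1 hu.1).2⟩
    unfold abn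
    rw [mem_filter]
    refine ⟨hl2, ?_⟩
    by_contra hcon
    have := hmin l (mem_filter.2 ⟨hl2, not_lt.1 hcon⟩)
    exact absurd hl.2 (not_lt.2 this)
  · refine prefers_of_normal hu.2 ?_
    rw [mem_nb]
    have := mem_nb.1 hu.1
    refine ⟨this.1.symm, ?_⟩
    rw [Sym2.eq_swap]
    exact this.2

/-- Pairs with exactly one endpoint in `S`. -/
noncomputable def cross (S : Finset (Fin n)) : Finset (Sym2 (Fin n)) :=
  (S ×ˢ Sᶜ).image fun q => s(q.1, q.2)

lemma card_cross (S : Finset (Fin n)) : #(cross S) = #S * (n - #S) := by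
  unfold cross
  rw [Finset.card_image_of_injOn, Finset.card_product, Finset.card_compl, Fintype.card_fin]
  intro q hq r hr h
  simp only [coe_product, coe_compl, Set.mem_prod, mem_coe, Set.mem_compl_iff] at hq hr
  have h' : s(q.1, q.2) = s(r.1, r.2) := h
  rw [Sym2.eq_iff] at h'
  rcases h' with h' | h'
  · exact Prod.ext h'.1 h'.2
  · exact absurd hq.1 (by rw [h'.1]; exact hr.2)

lemma closed_false {k C : ℕ} (hC : C < k) {x : Sym2 (Fin n) → ℝ} {a : ℝ}
    (h2 : ∀ v, #(abn k x a v) ≤ C)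
    (h1 : ∀ S : Finset (Fin n), 0 < #S → 2 * #S ≤ n →
      C * #S < #((cross S).filter fun e => x e ≤ a))
    (S : Finset (Fin n)) (hS : S.Nonempty) (hn : 2 * #S ≤ n)
    (hcl : ∀ u ∈ S, ∀ w, (mutualPref k x).Adj u w → w ∈ S) : False := by
  classical
  set S' := S.filter fun v => #(nb x a v) ≤ k with hS'
  have hsub : S' ⊆ S := Finset.filter_subset _ _
  have hne : S'.Nonempty := by
    obtain ⟨u, hu⟩ := hS
    by_cases hk : #(nb x a u) ≤ k
    · exact ⟨u, mem_filter.2 ⟨hu, hk⟩⟩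
    · obtain ⟨w, hw1, hw2⟩ := exists_normal hC (not_le.1 hk) (h2 u)
      exact ⟨w, mem_filter.2 ⟨hcl u hu w hw1, hw2⟩⟩
  have hlt := h1 S' (Finset.card_pos.2 hne)
    (le_trans (Nat.mul_le_mul_left 2 (Finset.card_le_card hsub)) hn)
  have hle : #((cross S').filter fun e => x e ≤ a) ≤ C * #S' := by
    have hsub2 : ((cross S').filter fun e => x e ≤ a) ⊆
        (S'.sigma fun v => abn k x a v).image fun q => s(q.1, q.2) := by
      intro e he
      rw [mem_filter] at he
      unfold cross at he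
      obtain ⟨he1, he2⟩ := he
      rw [Finset.mem_image] at he1
      obtain ⟨⟨u, w⟩, huw, rfl⟩ := he1
      rw [Finset.mem_product, Finset.mem_compl] at huw
      rw [Finset.mem_image]
      refine ⟨⟨u, w⟩, ?_, rfl⟩
      rw [Finset.mem_sigma]
      refine ⟨huw.1, ?_⟩
      have hne2 : w ≠ u := by
        rintro rfl
        exact huw.2 huw.1
      have hw : w ∈ nb x a u := mem_nb.2 ⟨hne2, he2⟩
      unfold abn
      rw [mem_filter]
      refine ⟨hw, ?_⟩
      by_contra hcon
      have hu' := mem_filter.1 huw.1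
      refine huw.2 (mem_filter.2 ⟨hcl u hu'.1 w ⟨hne2.symm, ?_, ?_⟩, not_lt.1 hcon⟩)
      · exact prefers_of_normal hu'.2 hw
      · refine prefers_of_normal (not_lt.1 hcon) (mem_nb.2 ⟨hne2.symm, ?_⟩)
        rw [Sym2.eq_swap]
        exact he2
    refine (Finset.card_le_card hsub2).trans (Finset.card_image_le.trans ?_)
    rw [Finset.card_sigma]
    refine (Finset.sum_le_sum fun v _ => h2 v).trans ?_
    rw [Finset.sum_const, smul_eq_mul, mul_comm]
  omega

lemma conn_of {k C : ℕ} (hC : C < k) (hn : 0 < n) {x : Sym2 (Fin n) → ℝ} {a : ℝ}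
    (h2 : ∀ v, #(abn k x a v) ≤ C)
    (h1 : ∀ S : Finset (Fin n), 0 < #S → 2 * #S ≤ n →
      C * #S < #((cross S).filter fun e => x e ≤ a)) : (mutualPref k x).Connected := by
  classical
  rw [SimpleGraph.connected_iff_exists_forall_reachable]
  refine ⟨⟨0, hn⟩, ?_⟩
  set v0 : Fin n := ⟨0, hn⟩
  set R : Finset (Fin n) := univ.filter fun w => (mutualPref k x).Reachable v0 w with hR
  have hcl : ∀ u ∈ R, ∀ w, (mutualPref k x).Adj u w → w ∈ R := by
    intro u hu w hw
    rw [hR, mem_filter] at hu ⊢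
    exact ⟨mem_univ _, hu.2.trans hw.reachable⟩
  have hcl2 : ∀ u ∈ Rᶜ, ∀ w, (mutualPref k x).Adj u w → w ∈ Rᶜ := by
    intro u hu w hw
    rw [Finset.mem_compl] at hu ⊢
    intro hcon
    exact hu (hcl w hcon u hw.symm)
  by_contra hcon
  push Not at hcon
  obtain ⟨w, hw⟩ := hcon
  have hRne : R.Nonempty := ⟨v0, by rw [hR, mem_filter]; exact ⟨mem_univ _, .refl _⟩⟩
  have hRcne : Rᶜ.Nonempty := ⟨w, by rw [Finset.mem_compl, hR, mem_filter]; tauto⟩
  have hcard : #R + #Rᶜ = n := by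
    rw [Finset.card_add_card_compl, Fintype.card_fin]
  by_cases hcase : 2 * #R ≤ n
  · exact closed_false hC h2 h1 R hRne hcase hcl
  · exact closed_false hC h2 h1 Rᶜ hRcne (by omega) hcl2

/-- A neighbour of a vertex all of whose edges cost more than `a`. -/
lemma bad_neighbour {k : ℕ} {x : Sym2 (Fin n) → ℝ} {a : ℝ} (b : ℝ) {v w : Fin n}
    (h : (mutualPref k x).Adj v w) (hv : ∀ l, l ≠ v → a < x s(v, l)) :
    #((nb x a w).erase v) < k ∧ (x s(v, w) ≤ b ∨ #(nb x b v) < k) := by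
  classical
  obtain ⟨hne, h1, h2⟩ := h
  unfold Prefers at h1 h2
  constructor
  · refine lt_of_le_of_lt (Finset.card_le_card ?_) h2
    intro l hl
    rw [Finset.mem_erase, mem_nb] at hl
    simp only [mem_filter, mem_univ, true_and]
    refine ⟨hl.2.1, lt_of_le_of_lt hl.2.2 ?_⟩
    rw [Sym2.eq_swap]
    exact hv w hne.symm
  · by_cases hb : x s(v, w) ≤ b
    · exact Or.inl hb
    · right
      refine lt_of_le_of_lt (Finset.card_le_card ?_) h1
      intro l hl
      rw [mem_nb] at hl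
      simp only [mem_filter, mem_univ, true_and]
      exact ⟨hl.1, lt_of_le_of_lt hl.2 (not_le.1 hb)⟩

end Pool.Agent.V11328.MK
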