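import Pool.Agent.V11328.MK.Base
import Pool.Agent.V11328.MK.Det

/-! The mutual preference graph below the threshold: a bound for the probability of connectedness. -/

open MeasureTheory ProbabilityTheory Finset Filter
open scoped Topology

namespace Pool.Agent.V11328.MK

variable {n : ℕ}

/-- The edges at `v`. -/
noncomputable def star (v : Fin n) : Finset (Sym2 (Fin n)) := (univ.erase v).image fun l => s(v, l)

lemma mem_star {v : Fin n} {e : Sym2 (Fin n)} : e ∈ star v ↔ ∃ l, l ≠ v ∧ s(v, l) = e := by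
  simp [star]

lemma card_star (v : Fin n) : #(star v) = n - 1 := by
  unfold star
  rw [Finset.card_image_of_injective, Finset.card_erase_of_mem (mem_univ _), Finset.card_univ,
    Fintype.card_fin]
  intro l m h
  have h' : s(v, l) = s(v, m) := h
  rw [Sym2.eq_iff] at h'
  rcases h' with h' | h'
  · exact h'.2
  · rw [h'.2, h'.1]

lemma star_inter {v w : Fin n} (h : v ≠ w) {e : Sym2 (Fin n)} (h1 : e ∈ star v) (h2 : e ∈ star w) :
    e = s(v, w) := by
  rw [mem_star] at h1 h2
  obtain ⟨l, hl, rfl⟩ := h1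
  obtain ⟨m, hm, hm2⟩ := h2
  rw [Sym2.eq_iff] at hm2
  rcases hm2 with h' | h'
  · exact absurd h'.1.symm h
  · rw [h'.1]

lemma mem_star_left {v w : Fin n} (h : v ≠ w) : s(v, w) ∈ star v := mem_star.2 ⟨w, h.symm, rfl⟩

lemma mem_star_right {v w : Fin n} (h : v ≠ w) : s(v, w) ∈ star w :=
  mem_star.2 ⟨v, h, Sym2.eq_swap⟩

lemma card_star_union {v w : Fin n} (h : v ≠ w) : 2 * n - 3 ≤ #(star v ∪ star w) := by
  have h1 := Finset.card_union_add_card_inter (star v) (star w)
  have h2 : #(star v ∩ star w) ≤ 1 := by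
    rw [Finset.card_le_one]
    intro e he f hf
    rw [Finset.mem_inter] at he hf
    rw [star_inter h he.1 he.2, star_inter h hf.1 hf.2]
  rw [card_star, card_star] at h1
  omega

lemma prod_ite_pow {ι : Type*} [Fintype ι] [DecidableEq ι] (T : Finset ι) (c : ℝ) :
    ∏ e, (if e ∈ T then c else 1) = c ^ #T := by
  rw [Finset.prod_ite_mem, Finset.univ_inter, Finset.prod_const]

/-- Indicator of the event that all edges at `v` cost more than `a`. -/
noncomputable def iso (a b : ℝ) (v : Fin n) (x : Sym2 (Fin n) → ℝ) : ℝ :=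
  ∏ e, stp a b (if e ∈ star v then 0 else 1) 1 1 (x e)

lemma iso_mul (a b : ℝ) (v w : Fin n) (x : Sym2 (Fin n) → ℝ) :
    iso a b v x * iso a b w x =
      ∏ e, stp a b (if e ∈ star v ∪ star w then 0 else 1) 1 1 (x e) := by
  unfold iso
  rw [← Finset.prod_mul_distrib]
  refine Finset.prod_congr rfl fun e _ => ?_
  unfold stp
  by_cases h1 : x e ≤ a <;> by_cases h2 : e ∈ star v <;> by_cases h3 : e ∈ star w <;>
    simp [h1, h2, h3]

lemma iso_nonneg (a b : ℝ) (v : Fin n) (x : Sym2 (Fin n) → ℝ) : 0 ≤ iso a b v x := by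
  unfold iso
  refine Finset.prod_nonneg fun e _ => stp_nonneg ?_ zero_le_one zero_le_one _
  split_ifs <;> norm_num

lemma iso_le_one (a b : ℝ) (v : Fin n) (x : Sym2 (Fin n) → ℝ) : iso a b v x ≤ 1 := by
  unfold iso
  refine Finset.prod_le_one (fun e _ => stp_nonneg ?_ zero_le_one zero_le_one _) fun e _ => ?_
  · split_ifs <;> norm_num
  · unfold stp
    split_ifs <;> norm_num

lemma iso_ne_zero {a b : ℝ} {v : Fin n} {x : Sym2 (Fin n) → ℝ} (h : iso a b v x ≠ 0) :
    ∀ e ∈ star v, a < x e := by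
  intro e he
  by_contra hcon
  apply h
  unfold iso
  refine Finset.prod_eq_zero (mem_univ e) ?_
  unfold stp
  rw [if_pos (not_lt.1 hcon), if_pos he]

/-- First kind of error. -/
noncomputable def F1 (a b t : ℝ) (k : ℕ) (v w : Fin n) (x : Sym2 (Fin n) → ℝ) : ℝ :=
  Real.exp (t * k) * ∏ e, stp a b
    (if e ∈ star v then 0 else if e ∈ star w then Real.exp (-t) else 1) 1
    (if e = s(v, w) then 0 else 1) (x e)

/-- Second kind of error. -/
noncomputable def F2 (a b : ℝ) (k : ℕ) (v : Fin n) (x : Sym2 (Fin n) → ℝ) : ℝ :=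
  Real.exp k * ∏ e, stp a b
    (if e ∈ star v then 0 else 1) (if e ∈ star v then Real.exp (-1) else 1) 1 (x e)

lemma F1_nonneg (a b t : ℝ) (k : ℕ) (v w : Fin n) (x : Sym2 (Fin n) → ℝ) :
    0 ≤ F1 a b t k v w x := by
  unfold F1
  refine mul_nonneg (Real.exp_pos _).le (Finset.prod_nonneg fun e _ => stp_nonneg ?_ ?_ ?_ _)
  · split_ifs <;> positivity
  · norm_num
  · split_ifs <;> norm_num

lemma F2_nonneg (a b : ℝ) (k : ℕ) (v : Fin n) (x : Sym2 (Fin n) → ℝ) :
    0 ≤ F2 a b k v x := by
  unfold F2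
  refine mul_nonneg (Real.exp_pos _).le (Finset.prod_nonneg fun e _ => stp_nonneg ?_ ?_ ?_ _)
  · split_ifs <;> norm_num
  · split_ifs <;> positivity
  · norm_num

lemma F1_ge {a b t : ℝ} (ht : 0 ≤ t) {k : ℕ} {v w : Fin n} (hvw : v ≠ w)
    {x : Sym2 (Fin n) → ℝ} (h1 : ∀ e ∈ star v, a < x e) (h2 : x s(v, w) ≤ b)
    (h3 : #((nb x a w).erase v) < k) : 1 ≤ F1 a b t k v w x := by
  unfold F1
  set T := ((nb x a w).erase v).image fun l => s(w, l) with hT
  have hcard : #T ≤ k := Finset.card_image_le.trans h3.le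
  have hge : ∏ e, (if e ∈ T then Real.exp (-t) else 1) ≤ ∏ e, stp a b
    (if e ∈ star v then 0 else if e ∈ star w then Real.exp (-t) else 1) 1
    (if e = s(v, w) then 0 else 1) (x e) := by
    refine Finset.prod_le_prod (fun e _ => by split_ifs <;> positivity) fun e _ => ?_
    have hle1 : Real.exp (-t) ≤ 1 := Real.exp_le_one_iff.2 (by linarith)
    unfold stp
    by_cases hx : x e ≤ a
    · have hv : e ∉ star v := fun hc => absurd (h1 e hc) (not_lt.2 hx)
      rw [if_pos hx, if_neg hv]
      by_cases hw : e ∈ star w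
      · rw [if_pos hw]
        have hw' := mem_star.1 hw
        obtain ⟨l, hl, rfl⟩ := hw'
        have hlv : l ≠ v := by
          rintro rfl
          exact hv (mem_star.2 ⟨w, hvw.symm, Sym2.eq_swap⟩)
        have : s(w, l) ∈ T := by
          rw [hT, Finset.mem_image]
          exact ⟨l, Finset.mem_erase.2 ⟨hlv, mem_nb.2 ⟨hl, hx⟩⟩, rfl⟩
        rw [if_pos this]
      · rw [if_neg hw]
        split_ifs
        · exact hle1
        · exact le_rfl
    · rw [if_neg hx]
      by_cases hb : x e ≤ b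
      · rw [if_pos hb]
        split_ifs
        · exact hle1
        · exact le_rfl
      · rw [if_neg hb]
        have hne : e ≠ s(v, w) := by
          rintro rfl
          exact hb h2
        rw [if_neg hne]
        split_ifs
        · exact hle1
        · exact le_rfl
  rw [prod_ite_pow] at hge
  have hpow : Real.exp (-(t * k)) ≤ Real.exp (-t) ^ #T := by
    rw [← Real.exp_nat_mul]
    apply Real.exp_le_exp.2
    have : (#T : ℝ) ≤ k := by exact_mod_cast hcard
    nlinarith
  calc (1 : ℝ) = Real.exp (t * k) * Real.exp (-(t * k)) := by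
        rw [← Real.exp_add]; simp
    _ ≤ _ := mul_le_mul_of_nonneg_left (hpow.trans hge) (Real.exp_pos _).le

lemma F2_ge {a b : ℝ} {k : ℕ} {v : Fin n}
    {x : Sym2 (Fin n) → ℝ} (h1 : ∀ e ∈ star v, a < x e)
    (h3 : #(nb x b v) < k) : 1 ≤ F2 a b k v x := by
  unfold F2
  set T := (nb x b v).image fun l => s(v, l) with hT
  have hcard : #T ≤ k := Finset.card_image_le.trans h3.le
  have hge : ∏ e, (if e ∈ T then Real.exp (-1) else 1) ≤ ∏ e, stp a b
    (if e ∈ star v then 0 else 1) (if e ∈ star v then Real.exp (-1) else 1) 1 (x e) := by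
    refine Finset.prod_le_prod (fun e _ => by split_ifs <;> positivity) fun e _ => ?_
    have hle1 : Real.exp (-1) ≤ 1 := Real.exp_le_one_iff.2 (by linarith)
    unfold stp
    by_cases hx : x e ≤ a
    · have hv : e ∉ star v := fun hc => absurd (h1 e hc) (not_lt.2 hx)
      rw [if_pos hx, if_neg hv]
      split_ifs
      · exact hle1
      · exact le_rfl
    · rw [if_neg hx]
      by_cases hb : x e ≤ b
      · rw [if_pos hb]
        by_cases hv : e ∈ star v
        · rw [if_pos hv]
          obtain ⟨l, hl, rfl⟩ := mem_star.1 hv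
          have : s(v, l) ∈ T := by
            rw [hT, Finset.mem_image]
            exact ⟨l, mem_nb.2 ⟨hl, hb⟩, rfl⟩
          rw [if_pos this]
        · rw [if_neg hv]
          split_ifs
          · exact hle1
          · exact le_rfl
      · rw [if_neg hb]
        split_ifs
        · exact hle1
        · exact le_rfl
  rw [prod_ite_pow] at hge
  have hpow : Real.exp (-(k : ℝ)) ≤ Real.exp (-1) ^ #T := by
    rw [← Real.exp_nat_mul]
    apply Real.exp_le_exp.2
    have : (#T : ℝ) ≤ k := by exact_mod_cast hcard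
    nlinarith
  calc (1 : ℝ) = Real.exp k * Real.exp (-(k : ℝ)) := by
        rw [← Real.exp_add]; simp
    _ ≤ _ := mul_le_mul_of_nonneg_left (hpow.trans hge) (Real.exp_pos _).le

lemma exists_adj {V : Type*} {G : SimpleGraph V} (h : G.Connected) {u v : V} (huv : v ≠ u) :
    ∃ w, G.Adj v w := by
  obtain ⟨p⟩ := h.preconnected v u
  cases p with
  | nil => exact absurd rfl huv
  | cons h _ => exact ⟨_, h⟩

lemma iso_le {a b t : ℝ} (ht : 0 ≤ t) {k : ℕ} (hn : 2 ≤ n) {x : Sym2 (Fin n) → ℝ}
    (h : (mutualPref k x).Connected) (v : Fin n) :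
    iso a b v x ≤ (∑ w ∈ univ.erase v, F1 a b t k v w x) + F2 a b k v x := by
  by_cases h0 : iso a b v x = 0
  · rw [h0]
    exact add_nonneg (Finset.sum_nonneg fun w _ => F1_nonneg _ _ _ _ _ _ _) (F2_nonneg _ _ _ _ _)
  · have hst := iso_ne_zero h0
    have : Nontrivial (Fin n) := Fin.nontrivial_iff_two_le.2 hn
    obtain ⟨u, hu⟩ := exists_ne v
    obtain ⟨w, hw⟩ := exists_adj h hu.symm
    have hvw : v ≠ w := hw.ne
    have hb := bad_neighbour b hw (fun l hl => hst _ (mem_star.2 ⟨l, hl, rfl⟩))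
    refine (iso_le_one a b v x).trans ?_
    rcases hb.2 with h2 | h2
    · have := F1_ge ht hvw hst h2 hb.1
      have h3 := Finset.single_le_sum (f := fun w => F1 a b t k v w x) (s := univ.erase v)
        (fun w _ => F1_nonneg _ _ _ _ _ _ _) (Finset.mem_erase.2 ⟨hvw.symm, mem_univ w⟩)
      have h4 := F2_nonneg a b k v x
      linarith
    · have := F2_ge hst h2
      have h3 := Finset.sum_nonneg (s := univ.erase v) (f := fun w => F1 a b t k v w x)
        fun w _ => F1_nonneg _ _ _ _ _ _ _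
      linarith

end Pool.Agent.V11328.MK
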