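import Pool.Agent.V11328.MK.Low

/-! The mutual preference graph below the threshold: expectations. -/

open MeasureTheory ProbabilityTheory Finset Filter
open scoped Topology

namespace Pool.Agent.V11328.MK

variable {n : ℕ} (ν : Measure ℝ) [IsProbabilityMeasure ν] {a b : ℝ}


lemma integrable_iso (hab : a ≤ b) (v : Fin n) : Integrable (iso a b v) (P (Sym2 (Fin n)) ν) :=
  integrable_prod ν hab _ _ _

lemma integrable_iso_mul (hab : a ≤ b) (v w : Fin n) :
    Integrable (fun x => iso a b v x * iso a b w x) (P (Sym2 (Fin n)) ν) := by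
  simp_rw [iso_mul]
  exact integrable_prod ν hab _ _ _

lemma E_set (hab : a ≤ b) (T : Finset (Sym2 (Fin n))) :
    ∫ x, ∏ e, stp a b (if e ∈ T then 0 else 1) 1 1 (x e) ∂(P (Sym2 (Fin n)) ν) =
      (1 - (ν.real (Set.Iic a))) ^ #T := by
  rw [integral_prod' ν hab, ← prod_ite_pow]
  refine Finset.prod_congr rfl fun e _ => ?_
  split_ifs <;> ring

lemma E_iso (hab : a ≤ b) (v : Fin n) :
    ∫ x, iso a b v x ∂(P (Sym2 (Fin n)) ν) = (1 - (ν.real (Set.Iic a))) ^ (n - 1) := by
  have := E_set ν hab (star v)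
  rw [card_star] at this
  exact this

lemma E_iso_self (hab : a ≤ b) (v : Fin n) :
    ∫ x, iso a b v x * iso a b v x ∂(P (Sym2 (Fin n)) ν) = (1 - (ν.real (Set.Iic a))) ^ (n - 1) := by
  simp_rw [iso_mul]
  rw [E_set ν hab, Finset.union_self, card_star]

omit [IsProbabilityMeasure ν] in
lemma pp_nonneg : 0 ≤ (ν.real (Set.Iic a)) := measureReal_nonneg
lemma pp_le_one : (ν.real (Set.Iic a)) ≤ 1 := measureReal_le_one
lemma pp_le_qq (hab : a ≤ b) : (ν.real (Set.Iic a)) ≤ (ν.real (Set.Iic b)) := measureReal_mono (Set.Iic_subset_Iic.2 hab)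

lemma E_iso_mul (hab : a ≤ b) {v w : Fin n} (h : v ≠ w) :
    ∫ x, iso a b v x * iso a b w x ∂(P (Sym2 (Fin n)) ν) ≤ (1 - (ν.real (Set.Iic a))) ^ (2 * n - 3) := by
  simp_rw [iso_mul]
  rw [E_set ν hab]
  exact pow_le_pow_of_le_one (by have := pp_le_one ν (a := a); linarith)
    (by have := pp_nonneg ν (a := a); linarith) (card_star_union h)

lemma E_F1 (hab : a ≤ b) (t : ℝ) (k : ℕ) {v w : Fin n} (h : v ≠ w) :
    ∫ x, F1 a b t k v w x ∂(P (Sym2 (Fin n)) ν) =
      Real.exp (t * k) * (((ν.real (Set.Iic b)) - (ν.real (Set.Iic a))) * (1 - (ν.real (Set.Iic a))) ^ (n - 2) *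
        (1 - (ν.real (Set.Iic a)) * (1 - Real.exp (-t))) ^ (n - 2)) := by
  unfold F1
  rw [integral_const_mul, integral_prod' ν hab]
  congr 1
  have hfac : ∀ e : Sym2 (Fin n),
      (ν.real (Set.Iic a)) * (if e ∈ star v then 0 else if e ∈ star w then Real.exp (-t) else 1) +
        ((ν.real (Set.Iic b)) - (ν.real (Set.Iic a))) * 1 + (1 - (ν.real (Set.Iic b))) * (if e = s(v, w) then 0 else 1) =
      ((if e ∈ ({s(v, w)} : Finset (Sym2 (Fin n))) then ((ν.real (Set.Iic b)) - (ν.real (Set.Iic a))) else 1) *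
        (if e ∈ (star v).erase s(v, w) then (1 - (ν.real (Set.Iic a))) else 1)) *
        (if e ∈ (star w).erase s(v, w) then (1 - (ν.real (Set.Iic a)) * (1 - Real.exp (-t))) else 1) := by
    intro e
    by_cases h0 : e = s(v, w)
    · rw [h0]
      simp [mem_star_left h]
    · by_cases h1 : e ∈ star v
      · have h2 : e ∉ star w := fun hc => h0 (star_inter h h1 hc)
        simp [h0, h1, h2]
      · by_cases h2 : e ∈ star w
        · simp [h0, h1, h2]
          ring
        · simp [h0, h1, h2]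
  rw [Finset.prod_congr rfl fun e _ => hfac e, Finset.prod_mul_distrib, Finset.prod_mul_distrib,
    prod_ite_pow, prod_ite_pow, prod_ite_pow, Finset.card_singleton, pow_one,
    Finset.card_erase_of_mem (mem_star_left h), Finset.card_erase_of_mem (mem_star_right h),
    card_star, card_star, Nat.sub_sub]

lemma E_F2 (hab : a ≤ b) (k : ℕ) (v : Fin n) :
    ∫ x, F2 a b k v x ∂(P (Sym2 (Fin n)) ν) =
      Real.exp k * (((ν.real (Set.Iic b)) - (ν.real (Set.Iic a))) * Real.exp (-1) + (1 - (ν.real (Set.Iic b)))) ^ (n - 1) := by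
  unfold F2
  rw [integral_const_mul, integral_prod' ν hab]
  congr 1
  rw [← card_star v, ← prod_ite_pow]
  refine Finset.prod_congr rfl fun e _ => ?_
  split_ifs <;> ring

lemma integrable_F1 (hab : a ≤ b) (t : ℝ) (k : ℕ) (v w : Fin n) :
    Integrable (F1 a b t k v w) (P (Sym2 (Fin n)) ν) :=
  (integrable_prod ν hab _ _ _).const_mul _

lemma integrable_F2 (hab : a ≤ b) (k : ℕ) (v : Fin n) :
    Integrable (F2 a b k v) (P (Sym2 (Fin n)) ν) :=
  (integrable_prod ν hab _ _ _).const_mul _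

/-- Number of isolated vertices. -/
noncomputable def XX (n : ℕ) (a b : ℝ) (x : Sym2 (Fin n) → ℝ) : ℝ := ∑ v : Fin n, iso a b v x

/-- The sum of the errors. -/
noncomputable def YY (n : ℕ) (a b t : ℝ) (k : ℕ) (x : Sym2 (Fin n) → ℝ) : ℝ :=
  ∑ v : Fin n, ((∑ w ∈ univ.erase v, F1 a b t k v w x) + F2 a b k v x)

lemma integrable_XX (hab : a ≤ b) : Integrable (XX n a b) (P (Sym2 (Fin n)) ν) :=
  integrable_finsetSum _ fun v _ => integrable_iso ν hab v

lemma integrable_YY (hab : a ≤ b) (t : ℝ) (k : ℕ) :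
    Integrable (YY n a b t k) (P (Sym2 (Fin n)) ν) :=
  integrable_finsetSum _ fun v _ => (integrable_finsetSum _ fun w _ =>
    integrable_F1 ν hab t k v w).add (integrable_F2 ν hab k v)

lemma E_XX (hab : a ≤ b) :
    ∫ x, XX n a b x ∂(P (Sym2 (Fin n)) ν) = n * (1 - (ν.real (Set.Iic a))) ^ (n - 1) := by
  unfold XX
  rw [integral_finsetSum _ fun v _ => integrable_iso ν hab v]
  simp_rw [E_iso ν hab]
  simp

lemma integrable_XX_sq (hab : a ≤ b) :
    Integrable (fun x => XX n a b x * XX n a b x) (P (Sym2 (Fin n)) ν) := by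
  unfold XX
  simp_rw [Finset.sum_mul_sum]
  exact integrable_finsetSum _ fun v _ => integrable_finsetSum _ fun w _ =>
    integrable_iso_mul ν hab v w

lemma E_XX_sq (hab : a ≤ b) :
    ∫ x, XX n a b x * XX n a b x ∂(P (Sym2 (Fin n)) ν) ≤
      n * (1 - (ν.real (Set.Iic a))) ^ (n - 1) + n * n * (1 - (ν.real (Set.Iic a))) ^ (2 * n - 3) := by
  unfold XX
  simp_rw [Finset.sum_mul_sum]
  rw [integral_finsetSum _ fun v _ => integrable_finsetSum _ fun w _ =>
    integrable_iso_mul ν hab v w]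
  have h1 : ∀ v : Fin n, ∫ x, ∑ w, iso a b v x * iso a b w x ∂(P (Sym2 (Fin n)) ν) ≤
      (1 - (ν.real (Set.Iic a))) ^ (n - 1) + n * (1 - (ν.real (Set.Iic a))) ^ (2 * n - 3) := by
    intro v
    rw [integral_finsetSum _ fun w _ => integrable_iso_mul ν hab v w,
      ← Finset.add_sum_erase _ _ (mem_univ v), E_iso_self ν hab]
    have h2 : ∑ w ∈ univ.erase v, ∫ x, iso a b v x * iso a b w x ∂(P (Sym2 (Fin n)) ν) ≤
        ∑ _w ∈ (univ : Finset (Fin n)), (1 - (ν.real (Set.Iic a))) ^ (2 * n - 3) := by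
      refine (Finset.sum_le_sum fun w hw => E_iso_mul ν hab (Finset.ne_of_mem_erase hw).symm).trans ?_
      refine Finset.sum_le_sum_of_subset_of_nonneg (Finset.erase_subset _ _) fun _ _ _ => ?_
      exact pow_nonneg (by have := pp_le_one ν (a := a); linarith) _
    simp only [Finset.sum_const, Finset.card_univ, Fintype.card_fin, nsmul_eq_mul] at h2
    linarith
  refine (Finset.sum_le_sum fun v _ => h1 v).trans (le_of_eq ?_)
  simp only [Finset.sum_const, Finset.card_univ, Fintype.card_fin, nsmul_eq_mul]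
  ring

lemma E_YY (hab : a ≤ b) (t : ℝ) (k : ℕ) :
    ∫ x, YY n a b t k x ∂(P (Sym2 (Fin n)) ν) ≤
      n * (n * (Real.exp (t * k) * (((ν.real (Set.Iic b)) - (ν.real (Set.Iic a))) * (1 - (ν.real (Set.Iic a))) ^ (n - 2) *
        (1 - (ν.real (Set.Iic a)) * (1 - Real.exp (-t))) ^ (n - 2))) +
        Real.exp k * (((ν.real (Set.Iic b)) - (ν.real (Set.Iic a))) * Real.exp (-1) + (1 - (ν.real (Set.Iic b)))) ^ (n - 1)) := by
  unfold YY
  have hi : ∀ v : Fin n, Integrable (fun x => ∑ w ∈ univ.erase v, F1 a b t k v w x)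
      (P (Sym2 (Fin n)) ν) := fun v => integrable_finsetSum _ fun w _ => integrable_F1 ν hab t k v w
  have hi' : ∀ v : Fin n, Integrable (fun x => (∑ w ∈ univ.erase v, F1 a b t k v w x) +
      F2 a b k v x) (P (Sym2 (Fin n)) ν) := fun v => (hi v).add (integrable_F2 ν hab k v)
  rw [integral_finsetSum _ fun v _ => hi' v]
  have h0 : 0 ≤ Real.exp (t * k) * (((ν.real (Set.Iic b)) - (ν.real (Set.Iic a))) * (1 - (ν.real (Set.Iic a))) ^ (n - 2) *
        (1 - (ν.real (Set.Iic a)) * (1 - Real.exp (-t))) ^ (n - 2)) := by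
    have h1 := pp_le_qq ν hab
    have h2 := pp_le_one ν (a := a)
    have h3 := pp_nonneg ν (a := a)
    have h4 : 0 ≤ 1 - (ν.real (Set.Iic a)) * (1 - Real.exp (-t)) := by
      have h5 := Real.exp_pos (-t)
      nlinarith
    have h6 : 0 ≤ 1 - (ν.real (Set.Iic a)) := by linarith
    have h7 : 0 ≤ (ν.real (Set.Iic b)) - (ν.real (Set.Iic a)) := by linarith
    positivity
  have h1 : ∀ v : Fin n, ∫ x, ((∑ w ∈ univ.erase v, F1 a b t k v w x) + F2 a b k v x)
      ∂(P (Sym2 (Fin n)) ν) ≤ (n * (Real.exp (t * k) * (((ν.real (Set.Iic b)) - (ν.real (Set.Iic a))) * (1 - (ν.real (Set.Iic a))) ^ (n - 2) *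
        (1 - (ν.real (Set.Iic a)) * (1 - Real.exp (-t))) ^ (n - 2))) +
        Real.exp k * (((ν.real (Set.Iic b)) - (ν.real (Set.Iic a))) * Real.exp (-1) + (1 - (ν.real (Set.Iic b)))) ^ (n - 1)) := by
    intro v
    rw [integral_add (hi v) (integrable_F2 ν hab k v), E_F2 ν hab,
      integral_finsetSum _ fun w _ => integrable_F1 ν hab t k v w]
    refine add_le_add ?_ le_rfl
    have h2 : ∑ w ∈ univ.erase v, ∫ x, F1 a b t k v w x ∂(P (Sym2 (Fin n)) ν) ≤
        ∑ _w ∈ (univ : Finset (Fin n)), (Real.exp (t * k) * (((ν.real (Set.Iic b)) - (ν.real (Set.Iic a))) * (1 - (ν.real (Set.Iic a))) ^ (n - 2) *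
        (1 - (ν.real (Set.Iic a)) * (1 - Real.exp (-t))) ^ (n - 2))) := by
      refine (Finset.sum_le_sum fun w hw =>
        (E_F1 ν hab t k (Finset.ne_of_mem_erase hw).symm).le).trans ?_
      exact Finset.sum_le_sum_of_subset_of_nonneg (Finset.erase_subset _ _) fun _ _ _ => h0
    refine h2.trans (le_of_eq ?_)
    simp only [Finset.sum_const, Finset.card_univ, Fintype.card_fin, nsmul_eq_mul]
  refine (Finset.sum_le_sum fun v _ => h1 v).trans (le_of_eq ?_)
  simp only [Finset.sum_const, Finset.card_univ, Fintype.card_fin, nsmul_eq_mul]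

lemma prob_conn_le (hab : a ≤ b) {t : ℝ} (ht : 0 ≤ t) (k : ℕ) (hn : 2 ≤ n) {μ : ℝ} (hμ0 : 0 < μ)
    (hμ : μ = n * (1 - (ν.real (Set.Iic a))) ^ (n - 1)) :
    (P (Sym2 (Fin n)) ν).real {x | (mutualPref k x).Connected} ≤
      4 / μ ^ 2 * (n * n * (1 - (ν.real (Set.Iic a))) ^ (2 * n - 3) + μ - μ ^ 2) +
      2 / μ * (n * (n * (Real.exp (t * k) * (((ν.real (Set.Iic b)) - (ν.real (Set.Iic a))) * (1 - (ν.real (Set.Iic a))) ^ (n - 2) *
        (1 - (ν.real (Set.Iic a)) * (1 - Real.exp (-t))) ^ (n - 2))) +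
        Real.exp k * (((ν.real (Set.Iic b)) - (ν.real (Set.Iic a))) * Real.exp (-1) + (1 - (ν.real (Set.Iic b)))) ^ (n - 1))) := by
  have hi1 : Integrable (fun x => 4 / μ ^ 2 * (XX n a b x * XX n a b x - 2 * μ * XX n a b x + μ ^ 2))
      (P (Sym2 (Fin n)) ν) :=
    (((integrable_XX_sq ν hab).sub ((integrable_XX ν hab).const_mul (2 * μ))).add
      (integrable_const _)).const_mul _
  have hi2 : Integrable (fun x => 2 / μ * YY n a b t k x) (P (Sym2 (Fin n)) ν) :=
    (integrable_YY ν hab t k).const_mul _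
  have hX0 : ∀ x : Sym2 (Fin n) → ℝ, 0 ≤ XX n a b x := fun x =>
    Finset.sum_nonneg fun v _ => iso_nonneg _ _ _ _
  have hY0 : ∀ x : Sym2 (Fin n) → ℝ, 0 ≤ YY n a b t k x := fun x =>
    Finset.sum_nonneg fun v _ => add_nonneg (Finset.sum_nonneg fun w _ => F1_nonneg _ _ _ _ _ _ _)
      (F2_nonneg _ _ _ _ _)
  refine (markov (P (Sym2 (Fin n)) ν) (hi1.add hi2) (fun x => ?_) (fun x hx => ?_)).trans ?_
  · have h1 : XX n a b x * XX n a b x - 2 * μ * XX n a b x + μ ^ 2 = (XX n a b x - μ) ^ 2 := by ring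
    have h2 := hY0 x
    show 0 ≤ 4 / μ ^ 2 * (XX n a b x * XX n a b x - 2 * μ * XX n a b x + μ ^ 2) +
      2 / μ * YY n a b t k x
    rw [h1]
    positivity
  · have hle : XX n a b x ≤ YY n a b t k x := Finset.sum_le_sum fun v _ => iso_le ht hn hx v
    show 1 ≤ 4 / μ ^ 2 * (XX n a b x * XX n a b x - 2 * μ * XX n a b x + μ ^ 2) +
      2 / μ * YY n a b t k x
    have h1 : XX n a b x * XX n a b x - 2 * μ * XX n a b x + μ ^ 2 = (XX n a b x - μ) ^ 2 := by ring
    rw [h1]
    by_cases hc : XX n a b x ≤ μ / 2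
    · have h2 : μ ^ 2 / 4 ≤ (XX n a b x - μ) ^ 2 := by nlinarith
      have h3 : 1 ≤ 4 / μ ^ 2 * (XX n a b x - μ) ^ 2 := by
        calc (1 : ℝ) = 4 / μ ^ 2 * (μ ^ 2 / 4) := by field_simp
          _ ≤ _ := mul_le_mul_of_nonneg_left h2 (by positivity)
      have h4 : 0 ≤ 2 / μ * YY n a b t k x := mul_nonneg (by positivity) (hY0 x)
      linarith
    · have h3 : 1 ≤ 2 / μ * YY n a b t k x := by
        calc (1 : ℝ) = 2 / μ * (μ / 2) := by field_simp
          _ ≤ _ := mul_le_mul_of_nonneg_left (by linarith) (by positivity)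
      have h4 : 0 ≤ 4 / μ ^ 2 * (XX n a b x - μ) ^ 2 := by positivity
      linarith
  · rw [integral_add' hi1 hi2, integral_const_mul, integral_const_mul]
    refine add_le_add ?_ (mul_le_mul_of_nonneg_left (E_YY ν hab t k) (by positivity))
    refine mul_le_mul_of_nonneg_left ?_ (by positivity)
    have hs : ∫ x, XX n a b x * XX n a b x - 2 * μ * XX n a b x + μ ^ 2 ∂(P (Sym2 (Fin n)) ν) =
        (∫ x, XX n a b x * XX n a b x ∂(P (Sym2 (Fin n)) ν)) - 2 * μ * μ + μ ^ 2 := by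
      have hs' : Integrable (fun x => XX n a b x * XX n a b x - 2 * μ * XX n a b x)
        (P (Sym2 (Fin n)) ν) :=
        (integrable_XX_sq ν hab).sub ((integrable_XX ν hab).const_mul (2 * μ))
      rw [integral_add hs' (integrable_const _), integral_sub (integrable_XX_sq ν hab)
        ((integrable_XX ν hab).const_mul (2 * μ)), integral_const_mul, E_XX ν hab, ← hμ]
      simp
    rw [hs]
    have := E_XX_sq (n := n) ν hab
    rw [← hμ] at this
    nlinarith

end Pool.Agent.V11328.MK
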