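import Pool.Agent.V11328.MK.Low2

/-! The mutual preference graph below the threshold: the limit. -/

open MeasureTheory ProbabilityTheory Finset Filter
open scoped Topology

namespace Pool.Agent.V11328.MK

/-- The costs: independent, exponentially distributed with rate `1/n`, one for each pair. -/
noncomputable def costs (n : ℕ) : Measure (Sym2 (Fin n) → ℝ) :=
  Measure.pi fun _ : Sym2 (Fin n) => expMeasure (1 / (n : ℝ))

lemma lim_pow_exp (j : ℕ) {η : ℝ} (hη : 0 < η) :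
    Tendsto (fun L : ℝ => L ^ j * Real.exp (-(η * L))) atTop (𝓝 0) := by
  have h1 := Real.tendsto_pow_mul_exp_neg_atTop_nhds_zero j
  have h2 : Tendsto (fun L : ℝ => η * L) atTop atTop := tendsto_id.const_mul_atTop hη
  have h3 := (h1.comp h2).const_mul ((η⁻¹) ^ j)
  rw [mul_zero] at h3
  refine h3.congr fun L => ?_
  simp only [Function.comp]
  rw [← mul_assoc, ← mul_pow]
  congr 2
  field_simp

lemma part_mu {n : ℕ} {l L p : ℝ} (hl0 : 0 < l) (hl : l < 1)
    (hL0 : 0 ≤ L) (hnL : (n : ℝ) = Real.exp L) (h2 : 2 * L ^ 2 ≤ n)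
    (hp : p = l * L / n) (hp2 : p ≤ 1 / 2) {μ : ℝ} (hμ : μ = n * (1 - p) ^ (n - 1)) :
    4 / μ ≤ 4 * Real.exp 1 * (L ^ 0 * Real.exp (-((1 - l) * L))) := by
  have hn0 : (0 : ℝ) < n := by rw [hnL]; positivity
  have hp0 : 0 ≤ p := by rw [hp]; positivity
  have hpn : n * p = l * L := by rw [hp]; field_simp
  have h1p : 0 < 1 - p := by linarith
  have h3 : Real.exp (-(l * L + 1)) ≤ (1 - p) ^ (n - 1) := by
    have h4 : Real.exp (-(p / (1 - p))) ≤ 1 - p := by
      have h5 := Real.add_one_le_exp (p / (1 - p))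
      have h6 : p / (1 - p) + 1 = 1 / (1 - p) := by field_simp; ring
      rw [h6] at h5
      rw [Real.exp_neg]
      rw [inv_le_comm₀ (Real.exp_pos _) h1p]
      rw [one_div] at h5
      exact h5
    have h5 : Real.exp (-(p / (1 - p))) ^ (n - 1) ≤ (1 - p) ^ (n - 1) :=
      pow_le_pow_left₀ (Real.exp_pos _).le h4 _
    refine le_trans ?_ h5
    rw [← Real.exp_nat_mul]
    apply Real.exp_le_exp.2
    have h6 : p / (1 - p) ≤ p * (1 + 2 * p) := by
      rw [div_le_iff₀ h1p]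
      have : 0 ≤ p * p * (1 - 2 * p) := mul_nonneg (mul_nonneg hp0 hp0) (by linarith)
      nlinarith
    have h7 : ((n - 1 : ℕ) : ℝ) ≤ n := by
      have : n - 1 ≤ n := by omega
      exact_mod_cast this
    have h8 : ((n - 1 : ℕ) : ℝ) * (p / (1 - p)) ≤ n * (p * (1 + 2 * p)) :=
      mul_le_mul h7 h6 (div_nonneg hp0 h1p.le) hn0.le
    have h9 : (n : ℝ) * (p * (1 + 2 * p)) = l * L + 2 * (l * L) * p := by
      rw [← hpn]; ring
    have h10 : 2 * (l * L) * p ≤ 1 := by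
      rw [hp]
      rw [show 2 * (l * L) * (l * L / n) = (l ^ 2 * (2 * L ^ 2)) / n by ring, div_le_one hn0]
      have h11 : l ^ 2 ≤ 1 := by nlinarith
      have h12 : 0 ≤ 2 * L ^ 2 := by positivity
      have h13 := mul_le_mul_of_nonneg_right h11 h12
      linarith
    linarith
  have h4 : Real.exp ((1 - l) * L - 1) ≤ μ := by
    rw [hμ, hnL]
    calc Real.exp ((1 - l) * L - 1) = Real.exp L * Real.exp (-(l * L + 1)) := by
          rw [← Real.exp_add]; congr 1; ring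
      _ ≤ _ := mul_le_mul_of_nonneg_left h3 (Real.exp_pos _).le
  calc 4 / μ ≤ 4 / Real.exp ((1 - l) * L - 1) :=
        div_le_div_of_nonneg_left (by norm_num) (Real.exp_pos _) h4
    _ = 4 * (Real.exp 1 * Real.exp (-((1 - l) * L))) := by
        rw [← Real.exp_add, div_eq_mul_inv, ← Real.exp_neg]
        congr 2; ring
    _ = _ := by rw [pow_zero]; ring

lemma part_A {n : ℕ} (hn : 4 ≤ n) {p : ℝ} (hp0 : 0 ≤ p) (hp2 : p ≤ 1 / 2)
    {μ : ℝ} (hμ : μ = n * (1 - p) ^ (n - 1)) :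
    4 / μ ^ 2 * (n * n * (1 - p) ^ (2 * n - 3) + μ - μ ^ 2) ≤ 8 * p + 4 / μ := by
  have hn4 : (4 : ℝ) ≤ n := by exact_mod_cast hn
  have h1p : 0 < 1 - p := by linarith
  have hm0 : 0 < (1 - p) ^ (n - 1) := by positivity
  have hμ0 : 0 < μ := by rw [hμ]; positivity
  have hm2 : (1 - p) ^ (2 * n - 3) * (1 - p) = ((1 - p) ^ (n - 1)) ^ 2 := by
    rw [← pow_succ, ← pow_mul]
    congr 1
    omega
  have h3 : (n : ℝ) * n * (1 - p) ^ (2 * n - 3) = μ ^ 2 / (1 - p) := by
    rw [eq_div_iff h1p.ne', hμ, mul_assoc, hm2]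
    ring
  rw [h3]
  have h4 : μ ^ 2 / (1 - p) ≤ μ ^ 2 * (1 + 2 * p) := by
    rw [div_le_iff₀ h1p]
    have h5 : 0 ≤ p * (1 - 2 * p) := mul_nonneg hp0 (by linarith)
    have h6 := mul_nonneg (sq_nonneg μ) h5
    linarith
  calc 4 / μ ^ 2 * (μ ^ 2 / (1 - p) + μ - μ ^ 2)
      ≤ 4 / μ ^ 2 * (μ ^ 2 * (1 + 2 * p) + μ - μ ^ 2) := by
        refine mul_le_mul_of_nonneg_left (by linarith) (by positivity)
    _ = 8 * p + 4 / μ := by field_simp; ring

lemma part_D {n : ℕ} (hn : 4 ≤ n) {l L p t : ℝ} (hpn : n * p = l * L) (hp0 : 0 ≤ p)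
    (hp2 : p ≤ 1 / 2) (ht0 : 0 < t) (ht1 : t ≤ 1 / 2) :
    (1 - p * (1 - Real.exp (-t))) ^ (n - 2) ≤ Real.exp (-((t - t ^ 2) * (l * L - 1))) := by
  have hD0 : 0 ≤ 1 - p * (1 - Real.exp (-t)) := by
    have h1 := mul_nonneg hp0 (Real.exp_pos (-t)).le
    linarith
  have h3 : 1 - p * (1 - Real.exp (-t)) ≤ Real.exp (-(p * (t - t ^ 2))) := by
    have h4 := Real.add_one_le_exp (-(p * (t - t ^ 2)))
    have h5 := (abs_le.1 (Real.abs_exp_sub_one_sub_id_le (x := -t)
      (by rw [abs_neg, abs_of_pos ht0]; linarith))).2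
    have h6 : Real.exp (-t) ≤ 1 - t + t ^ 2 := by
      have : (-t) ^ 2 = t ^ 2 := by ring
      linarith
    have h7 := mul_le_mul_of_nonneg_left h6 hp0
    linarith
  refine (pow_le_pow_left₀ hD0 h3 _).trans ?_
  rw [← Real.exp_nat_mul]
  apply Real.exp_le_exp.2
  have h7 : ((n - 2 : ℕ) : ℝ) = n - 2 := by
    have : 2 ≤ n := by omega
    push_cast [Nat.cast_sub this]
    ring
  rw [h7]
  have h9 : 0 ≤ t - t ^ 2 := by
    have := mul_nonneg ht0.le (by linarith : (0:ℝ) ≤ 1 - t)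
    linarith
  have h10 : (n - 2 : ℝ) * p = l * L - 2 * p := by rw [← hpn]; ring
  calc (n - 2 : ℝ) * -(p * (t - t ^ 2)) = -((t - t ^ 2) * ((n - 2 : ℝ) * p)) := by ring
    _ ≤ -((t - t ^ 2) * (l * L - 1)) := by
      rw [h10]
      have := mul_nonneg h9 (by linarith : (0:ℝ) ≤ 1 - 2 * p)
      linarith

lemma part_B {n : ℕ} (hn : 4 ≤ n) {c l t L p q K : ℝ} (hc0 : 0 < c) (hcl : c < l) (hl : l < 1)
    (hL0 : 0 ≤ L) (hpn : n * p = l * L) (hqn : n * q = (l + 4) * L) (hp0 : 0 ≤ p) (hpq : p ≤ q)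
    (hp2 : p ≤ 1 / 2) (ht : t = (l - c) / (2 * l)) (hK : K ≤ c * L) {μ : ℝ}
    (hμ : μ = n * (1 - p) ^ (n - 1)) :
    2 / μ * (n * (n * (Real.exp (t * K) * ((q - p) * (1 - p) ^ (n - 2) *
        (1 - p * (1 - Real.exp (-t))) ^ (n - 2))))) ≤
      16 * Real.exp 1 * (L ^ 1 * Real.exp (-(t * (l - c) / 2 * L))) := by
  have hl0 : 0 < l := hc0.trans hcl
  have hn4 : (4 : ℝ) ≤ n := by exact_mod_cast hn
  have hn0 : (0 : ℝ) < n := by linarith
  have h1p : 0 < 1 - p := by linarith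
  have hm0 : 0 < (1 - p) ^ (n - 1) := by positivity
  have ht0 : 0 < t := by rw [ht]; exact div_pos (by linarith) (by linarith)
  have ht1 : t ≤ 1 / 2 := by
    rw [ht, div_le_iff₀ (by linarith)]
    linarith
  have hD := part_D hn hpn hp0 hp2 ht0 ht1
  have hD0 : 0 ≤ 1 - p * (1 - Real.exp (-t)) := by
    have h1 := mul_nonneg hp0 (Real.exp_pos (-t)).le
    linarith
  have hm1 : (1 - p) ^ (n - 2) * (1 - p) = (1 - p) ^ (n - 1) := by
    rw [← pow_succ]
    congr 1
    omega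
  set m := (1 - p) ^ (n - 1) with hm
  have hμ0 : 0 < μ := by rw [hμ]; positivity
  have h3 : (1 - p) ^ (n - 2) ≤ 2 * m := by
    rw [← hm1]
    have h3' : 0 ≤ (1 - p) ^ (n - 2) := by positivity
    have := mul_le_mul_of_nonneg_left (by linarith : (1:ℝ) ≤ 2 * (1 - p)) h3'
    linarith
  have h4 : (n : ℝ) * (q - p) = 4 * L := by
    rw [mul_sub, hpn, hqn]; ring
  have h5 : 0 ≤ q - p := by linarith
  have h6 : Real.exp (t * K) ≤ Real.exp (t * (c * L)) :=
    Real.exp_le_exp.2 (mul_le_mul_of_nonneg_left hK ht0.le)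
  calc 2 / μ * (n * (n * (Real.exp (t * K) * ((q - p) * (1 - p) ^ (n - 2) *
      (1 - p * (1 - Real.exp (-t))) ^ (n - 2)))))
      ≤ 2 / μ * (n * (n * (Real.exp (t * (c * L)) * ((q - p) * (2 * m) *
        Real.exp (-((t - t ^ 2) * (l * L - 1))))))) := by
        gcongr
    _ = 4 * (n * (q - p)) * (Real.exp (t * (c * L)) *
        Real.exp (-((t - t ^ 2) * (l * L - 1)))) := by
        rw [hμ]; field_simp; ring
    _ = 16 * L * Real.exp (t * (c * L) + -((t - t ^ 2) * (l * L - 1))) := by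
        rw [h4, Real.exp_add]; ring
    _ ≤ 16 * L * Real.exp (1 + -(t * (l - c) / 2 * L)) := by
        refine mul_le_mul_of_nonneg_left (Real.exp_le_exp.2 ?_) (by positivity)
        have h7 : t * (2 * l) = l - c := by rw [ht]; field_simp
        have h8 : t * (c * L) + -((t - t ^ 2) * (l * L - 1)) =
          -(t * (l - c) / 2 * L) + (t - t ^ 2) - t * L / 2 * ((l - c) - t * (2 * l)) := by ring
        rw [h8, h7]
        have := sq_nonneg t
        linarith
    _ = _ := by rw [Real.exp_add, pow_one]; ring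

lemma part_C {n : ℕ} (hn : 4 ≤ n) {c l L p q K : ℝ} (hc0 : 0 < c) (hcl : c < l) (hl : l < 1)
    (hL0 : 0 ≤ L) (hpn : n * p = l * L) (hqn : n * q = (l + 4) * L) (hp0 : 0 ≤ p) (hpq : p ≤ q)
    (hq2 : q ≤ 1 / 2) (hK : K ≤ c * L) {μ : ℝ} (hμ : μ = n * (1 - p) ^ (n - 1)) :
    2 / μ * (n * (Real.exp K * ((q - p) * Real.exp (-1) + (1 - q)) ^ (n - 1))) ≤
      2 * (L ^ 0 * Real.exp (-(1 / 2 * L))) := by
  have hl0 : 0 < l := hc0.trans hcl
  have hn4 : (4 : ℝ) ≤ n := by exact_mod_cast hn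
  have hn0 : (0 : ℝ) < n := by linarith
  have h1p : 0 < 1 - p := by linarith
  have hm0 : 0 < (1 - p) ^ (n - 1) := by positivity
  set m := (1 - p) ^ (n - 1) with hm
  have hμ0 : 0 < μ := by rw [hμ]; positivity
  have h6 : 0 ≤ q - p := by linarith
  have h3 : (q - p) * Real.exp (-1) + (1 - q) ≤ (1 - p) * Real.exp (-((q - p) / 2)) := by
    have h4 : Real.exp (-1) ≤ 1 / 2 := by
      have := Real.add_one_le_exp 1
      rw [Real.exp_neg, inv_le_comm₀ (Real.exp_pos _) (by norm_num)]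
      norm_num
      linarith
    have h5 := Real.add_one_le_exp (-((q - p) / 2))
    have h7 : (q - p) * Real.exp (-1) ≤ (q - p) * (1 / 2) := mul_le_mul_of_nonneg_left h4 h6
    have h8 : (1 - p) * (-((q - p) / 2) + 1) ≤ (1 - p) * Real.exp (-((q - p) / 2)) :=
      mul_le_mul_of_nonneg_left h5 h1p.le
    have h9 := mul_nonneg hp0 h6
    linarith
  have h0 : 0 ≤ (q - p) * Real.exp (-1) + (1 - q) := by
    have := mul_nonneg h6 (Real.exp_pos (-1)).le
    linarith
  have h4 : ((q - p) * Real.exp (-1) + (1 - q)) ^ (n - 1) ≤ m * Real.exp (-(3 / 2 * L)) := by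
    refine (pow_le_pow_left₀ h0 h3 _).trans ?_
    rw [mul_pow, ← hm]
    refine mul_le_mul_of_nonneg_left ?_ hm0.le
    rw [← Real.exp_nat_mul]
    apply Real.exp_le_exp.2
    have h7 : ((n - 1 : ℕ) : ℝ) = n - 1 := by
      have : 1 ≤ n := by omega
      push_cast [Nat.cast_sub this]
      ring
    rw [h7]
    have h8 : (n : ℝ) * (q - p) = 4 * L := by rw [mul_sub, hpn, hqn]; ring
    have h9 : q - p ≤ L := by
      have := mul_le_mul_of_nonneg_right hn4 h6
      linarith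
    have h10 : (n - 1 : ℝ) * -((q - p) / 2) = -(n * (q - p) / 2) + (q - p) / 2 := by ring
    rw [h10, h8]
    linarith
  have h5 : Real.exp K ≤ Real.exp L := Real.exp_le_exp.2 (by
    have := mul_le_mul_of_nonneg_right (by linarith : c ≤ 1) hL0
    linarith)
  calc 2 / μ * (n * (Real.exp K * ((q - p) * Real.exp (-1) + (1 - q)) ^ (n - 1)))
      ≤ 2 / μ * (n * (Real.exp L * (m * Real.exp (-(3 / 2 * L))))) := by
        gcongr
    _ = 2 * (Real.exp L * Real.exp (-(3 / 2 * L))) := by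
        rw [hμ]; field_simp
    _ = _ := by
        rw [← Real.exp_add, pow_zero, one_mul]
        congr 2; ring

lemma main_real {n : ℕ} (hn : 4 ≤ n) {c l t L p q K : ℝ} (hc0 : 0 < c) (hcl : c < l) (hl : l < 1)
    (hL0 : 0 ≤ L) (hnL : (n : ℝ) = Real.exp L) (h10 : 10 * L ≤ n) (h2 : 2 * L ^ 2 ≤ n)
    (hp : p = l * L / n) (hq : q = (l + 4) * L / n) (ht : t = (l - c) / (2 * l))
    (hK : K ≤ c * L) {μ : ℝ} (hμ : μ = n * (1 - p) ^ (n - 1)) :
    4 / μ ^ 2 * (n * n * (1 - p) ^ (2 * n - 3) + μ - μ ^ 2) +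
      2 / μ * (n * (n * (Real.exp (t * K) * ((q - p) * (1 - p) ^ (n - 2) *
        (1 - p * (1 - Real.exp (-t))) ^ (n - 2))) +
        Real.exp K * ((q - p) * Real.exp (-1) + (1 - q)) ^ (n - 1))) ≤
      8 * (L ^ 1 * Real.exp (-(1 * L))) + 4 * Real.exp 1 * (L ^ 0 * Real.exp (-((1 - l) * L))) +
      16 * Real.exp 1 * (L ^ 1 * Real.exp (-(t * (l - c) / 2 * L))) +
      2 * (L ^ 0 * Real.exp (-(1 / 2 * L))) := by
  have hl0 : 0 < l := hc0.trans hcl
  have hn0 : (0 : ℝ) < n := by rw [hnL]; exact Real.exp_pos _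
  have hp0 : 0 ≤ p := by rw [hp]; exact div_nonneg (mul_nonneg hl0.le hL0) hn0.le
  have hpn : n * p = l * L := by rw [hp]; field_simp
  have hqn : n * q = (l + 4) * L := by rw [hq]; field_simp
  have hq2 : q ≤ 1 / 2 := by
    rw [hq, div_le_iff₀ hn0]
    have := mul_le_mul_of_nonneg_right hl.le hL0
    linarith
  have hpq : p ≤ q := by
    rw [hp, hq]
    refine div_le_div_of_nonneg_right ?_ hn0.le
    linarith
  have hp2 : p ≤ 1 / 2 := hpq.trans hq2
  have hA := part_A hn hp0 hp2 hμ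
  have hmu := part_mu hl0 hl hL0 hnL h2 hp hp2 hμ
  have hB := part_B hn hc0 hcl hl hL0 hpn hqn hp0 hpq hp2 ht hK hμ
  have hC := part_C hn hc0 hcl hl hL0 hpn hqn hp0 hpq hq2 hK hμ
  have hP : 8 * p ≤ 8 * (L ^ 1 * Real.exp (-(1 * L))) := by
    rw [pow_one, one_mul, Real.exp_neg, ← hnL, hp]
    have h3 : l * L / n ≤ L * (n : ℝ)⁻¹ := by
      rw [div_eq_mul_inv]
      refine mul_le_mul_of_nonneg_right ?_ (inv_nonneg.2 hn0.le)
      have := mul_le_mul_of_nonneg_right hl.le hL0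
      linarith
    linarith
  have hsplit : 2 / μ * (n * (n * (Real.exp (t * K) * ((q - p) * (1 - p) ^ (n - 2) *
        (1 - p * (1 - Real.exp (-t))) ^ (n - 2))) +
        Real.exp K * ((q - p) * Real.exp (-1) + (1 - q)) ^ (n - 1))) =
      2 / μ * (n * (n * (Real.exp (t * K) * ((q - p) * (1 - p) ^ (n - 2) *
        (1 - p * (1 - Real.exp (-t))) ^ (n - 2))))) +
      2 / μ * (n * (Real.exp K * ((q - p) * Real.exp (-1) + (1 - q)) ^ (n - 1))) := by ring
  rw [hsplit]
  linarith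

lemma tendsto_log_nat : Tendsto (fun n : ℕ => Real.log n) atTop atTop :=
  Real.tendsto_log_atTop.comp tendsto_natCast_atTop_atTop

lemma eventually_log (j : ℕ) {δ : ℝ} (hδ : 0 < δ) :
    ∀ᶠ n : ℕ in atTop, (Real.log n) ^ j ≤ δ * n := by
  have h := (lim_pow_exp j one_pos).comp tendsto_log_nat
  filter_upwards [h.eventually (eventually_lt_nhds hδ), eventually_gt_atTop 0] with n hn hn0
  simp only [Function.comp, one_mul] at hn
  have hn1 : (0 : ℝ) < n := by exact_mod_cast hn0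
  rw [Real.exp_neg, Real.exp_log hn1, ← div_eq_mul_inv, div_lt_iff₀ hn1] at hn
  exact hn.le

theorem low_limit {c : ℝ} (hc0 : 0 < c) (hc1 : c < 1) :
    Tendsto (fun n : ℕ => (costs n).real {x | (mutualPref ⌊c * Real.log n⌋₊ x).Connected})
      atTop (𝓝 0) := by
  set l : ℝ := (1 + c) / 2 with hl
  have hcl : c < l := by rw [hl]; linarith
  have hl1 : l < 1 := by rw [hl]; linarith
  have hl0 : 0 < l := hc0.trans hcl
  set t : ℝ := (l - c) / (2 * l) with ht
  have ht0 : 0 < t := by rw [ht]; exact div_pos (by linarith) (by linarith)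
  have hη : 0 < t * (l - c) / 2 := by
    have : 0 < l - c := by linarith
    positivity
  have hlim : Tendsto (fun L : ℝ => 8 * (L ^ 1 * Real.exp (-(1 * L))) +
      4 * Real.exp 1 * (L ^ 0 * Real.exp (-((1 - l) * L))) +
      16 * Real.exp 1 * (L ^ 1 * Real.exp (-(t * (l - c) / 2 * L))) +
      2 * (L ^ 0 * Real.exp (-(1 / 2 * L)))) atTop (𝓝 0) := by
    have h1 := (lim_pow_exp 1 one_pos).const_mul 8
    have h2 := (lim_pow_exp 0 (by linarith : (0:ℝ) < 1 - l)).const_mul (4 * Real.exp 1)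
    have h3 := (lim_pow_exp 1 hη).const_mul (16 * Real.exp 1)
    have h4 := (lim_pow_exp 0 (by norm_num : (0:ℝ) < 1 / 2)).const_mul 2
    have h5 := ((h1.add h2).add h3).add h4
    simpa using h5
  refine tendsto_of_tendsto_of_tendsto_of_le_of_le' tendsto_const_nhds (hlim.comp tendsto_log_nat)
    (Eventually.of_forall fun n => measureReal_nonneg) ?_
  filter_upwards [eventually_ge_atTop 4, eventually_log 1 (by norm_num : (0:ℝ) < 1 / 10),
    eventually_log 2 (by norm_num : (0:ℝ) < 1 / 2)] with n hn h10 h2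
  have hn4 : (4 : ℝ) ≤ n := by exact_mod_cast hn
  have hn0 : (0 : ℝ) < n := by linarith
  have hr : (0 : ℝ) < 1 / n := by positivity
  have hL0 : 0 ≤ Real.log n := Real.log_nonneg (by linarith)
  have := isProbabilityMeasure_expMeasure hr
  set L := Real.log n with hL
  rw [pow_one] at h10
  set p := l * L / n with hp
  set q := (l + 4) * L / n with hq
  have hp0 : 0 ≤ p := by positivity
  have hpq : p ≤ q := by
    rw [hp, hq]
    refine div_le_div_of_nonneg_right ?_ hn0.le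
    linarith
  have hq2 : q ≤ 1 / 2 := by
    rw [hq, div_le_iff₀ hn0]
    have := mul_le_mul_of_nonneg_right hl1.le hL0
    linarith
  have hab := exp_thr_mono hr hpq (by linarith : q < 1)
  have h1 : (expMeasure (1 / (n : ℝ))).real (Set.Iic (-Real.log (1 - p) / (1 / n))) = p :=
    exp_real_Iic hr hp0 (by linarith)
  have h3 : (expMeasure (1 / (n : ℝ))).real (Set.Iic (-Real.log (1 - q) / (1 / n))) = q :=
    exp_real_Iic hr (by linarith) (by linarith)
  have hμ0 : 0 < (n : ℝ) * (1 - p) ^ (n - 1) := by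
    have : 0 < 1 - p := by linarith
    positivity
  have hb := prob_conn_le (n := n) (expMeasure (1 / (n : ℝ))) hab ht0.le ⌊c * L⌋₊ (by omega) hμ0
    (by rw [h1])
  rw [h1, h3] at hb
  refine hb.trans ?_
  exact main_real hn hc0 hcl hl1 hL0 (Real.exp_log hn0).symm (by linarith) (by linarith) hp hq ht
    (Nat.floor_le (by positivity)) rfl

end Pool.Agent.V11328.MK
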