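import Pool.Agent.V11328.MK.Low

/-! The mutual preference graph above the threshold: a bound for the probability of
disconnectedness. -/

open MeasureTheory ProbabilityTheory Finset Filter
open scoped Topology

namespace Pool.Agent.V11328.MK

variable {n : ℕ} (ν : Measure ℝ) [IsProbabilityMeasure ν] {a : ℝ}


lemma stp_count (a y : ℝ) (T : Finset (Sym2 (Fin n))) (x : Sym2 (Fin n) → ℝ) :
    ∏ e, stp a a (if e ∈ T then y else 1) 1 1 (x e) = y ^ #(T.filter fun e => x e ≤ a) := by
  rw [← prod_ite_pow]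
  refine Finset.prod_congr rfl fun e _ => ?_
  unfold stp
  by_cases h1 : x e ≤ a <;> by_cases h2 : e ∈ T <;> simp [h1, h2]

lemma prob_bad1 (S : Finset (Fin n)) {u : ℝ} (hu : 0 ≤ u) (C : ℕ) :
    (P (Sym2 (Fin n)) ν).real {x | #((cross S).filter fun e => x e ≤ a) ≤ C * #S} ≤
      Real.exp (u * (C * #S) - (ν.real (Set.Iic a)) * (1 - Real.exp (-u)) * (#S * (n - #S : ℕ))) := by
  have h0 : 0 ≤ (ν.real (Set.Iic a)) := measureReal_nonneg
  have h1 : (ν.real (Set.Iic a)) ≤ 1 := measureReal_le_one
  refine (prob_le ν (le_refl a) (fun e => if e ∈ cross S then Real.exp (-u) else 1) (fun _ => 1)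
    (fun _ => 1) (fun e => by split_ifs <;> positivity) (fun _ => zero_le_one)
    (fun _ => zero_le_one) (K := Real.exp (u * (C * #S))) (Real.exp_pos _).le _ ?_).trans ?_
  · intro x hx
    rw [stp_count, ← Real.exp_nat_mul, ← Real.exp_add]
    rw [← Real.exp_zero]
    apply Real.exp_le_exp.2
    have h2 : (#((cross S).filter fun e => x e ≤ a) : ℝ) ≤ C * #S := by
      have h3 : #((cross S).filter fun e => x e ≤ a) ≤ C * #S := hx
      exact_mod_cast h3
    have h3 := mul_le_mul_of_nonneg_left h2 hu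
    linarith
  · rw [sub_eq_add_neg (u * (C * #S) : ℝ), Real.exp_add]
    refine mul_le_mul_of_nonneg_left ?_ (Real.exp_pos _).le
    have h2 : ∀ e : Sym2 (Fin n), (ν.real (Set.Iic a)) * (if e ∈ cross S then Real.exp (-u) else 1) +
        ((ν.real (Set.Iic a)) - (ν.real (Set.Iic a))) * 1 + (1 - (ν.real (Set.Iic a))) * 1 = if e ∈ cross S then 1 - (ν.real (Set.Iic a)) * (1 - Real.exp (-u)) else 1 := by
      intro e
      split_ifs <;> ring
    rw [Finset.prod_congr rfl fun e _ => h2 e, prod_ite_pow, card_cross]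
    have h3 : 0 ≤ 1 - (ν.real (Set.Iic a)) * (1 - Real.exp (-u)) := by
      have := mul_nonneg h0 (Real.exp_pos (-u)).le
      linarith
    have h4 : 1 - (ν.real (Set.Iic a)) * (1 - Real.exp (-u)) ≤ Real.exp (-((ν.real (Set.Iic a)) * (1 - Real.exp (-u)))) := by
      have := Real.add_one_le_exp (-((ν.real (Set.Iic a)) * (1 - Real.exp (-u))))
      linarith
    refine (pow_le_pow_left₀ h3 h4 _).trans (le_of_eq ?_)
    rw [← Real.exp_nat_mul]
    congr 1
    push_cast
    ring

/-- The edges between `B` and the vertices outside `B` and different from `v`. -/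
noncomputable def outer (v : Fin n) (B : Finset (Fin n)) : Finset (Sym2 (Fin n)) :=
  (B ×ˢ (insert v B)ᶜ).image fun q => s(q.1, q.2)

lemma outer_inj (v : Fin n) (B : Finset (Fin n)) :
    Set.InjOn (fun q : Fin n × Fin n => s(q.1, q.2)) (B ×ˢ (insert v B)ᶜ : Finset (Fin n × Fin n)) := by
  intro q hq r hr h
  rw [Finset.mem_coe, Finset.mem_product, Finset.mem_compl, Finset.mem_insert] at hq hr
  have h' : s(q.1, q.2) = s(r.1, r.2) := h
  rw [Sym2.eq_iff] at h'
  rcases h' with h' | h'
  · exact Prod.ext h'.1 h'.2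
  · exact absurd (Or.inr hq.1) (by rw [h'.1]; exact hr.2)

lemma card_outer_le (v : Fin n) (B : Finset (Fin n)) : #(outer v B) ≤ #B * n := by
  unfold outer
  refine Finset.card_image_le.trans ?_
  rw [Finset.card_product]
  refine Nat.mul_le_mul_left _ ?_
  calc #((insert v B)ᶜ) ≤ #(univ : Finset (Fin n)) := Finset.card_le_univ _
    _ = n := by rw [Finset.card_univ, Fintype.card_fin]

lemma outer_count {v : Fin n} {B : Finset (Fin n)} {x : Sym2 (Fin n) → ℝ} {k : ℕ}
    (h : ∀ b ∈ B, k < #(nb x a b)) :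
    #B * (k + 1) ≤ #((outer v B).filter fun e => x e ≤ a) + #B * #B := by
  classical
  have h1 : #((outer v B).filter fun e => x e ≤ a) =
      ∑ b ∈ B, #(((insert v B)ᶜ).filter fun w => x s(b, w) ≤ a) := by
    unfold outer
    rw [Finset.filter_image, Finset.card_image_of_injOn]
    · rw [Finset.card_filter, Finset.sum_product]
      refine Finset.sum_congr rfl fun b _ => ?_
      rw [Finset.card_filter]
    · exact (outer_inj v B).mono (by
        intro q hq
        rw [Finset.mem_coe, Finset.mem_filter] at hq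
        exact hq.1)
  rw [h1]
  have h2 : ∀ b ∈ B, k + 1 ≤ #(((insert v B)ᶜ).filter fun w => x s(b, w) ≤ a) + #B := by
    intro b hb
    refine (Nat.succ_le_of_lt (h b hb)).trans ?_
    have hsub : nb x a b ⊆ (((insert v B)ᶜ).filter fun w => x s(b, w) ≤ a) ∪
        insert v (B.erase b) := by
      intro w hw
      rw [mem_nb] at hw
      rw [Finset.mem_union, Finset.mem_filter, Finset.mem_compl, Finset.mem_insert,
        Finset.mem_insert, Finset.mem_erase]
      by_cases hwv : w = v
      · right; left; exact hwv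
      · by_cases hwB : w ∈ B
        · right; right; exact ⟨hw.1, hwB⟩
        · left
          exact ⟨by tauto, hw.2⟩
    refine (Finset.card_le_card hsub).trans ((Finset.card_union_le _ _).trans ?_)
    refine Nat.add_le_add_left ?_ _
    refine (Finset.card_insert_le _ _).trans ?_
    rw [Finset.card_erase_of_mem hb]
    have : 0 < #B := Finset.card_pos.2 ⟨b, hb⟩
    omega
  calc #B * (k + 1) = ∑ _b ∈ B, (k + 1) := by rw [Finset.sum_const, smul_eq_mul]
    _ ≤ ∑ b ∈ B, (#(((insert v B)ᶜ).filter fun w => x s(b, w) ≤ a) + #B) := Finset.sum_le_sum h2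
    _ = _ := by rw [Finset.sum_add_distrib, Finset.sum_const, smul_eq_mul]

lemma prob_bad2 (v : Fin n) (B : Finset (Fin n)) (hv : v ∉ B) {s : ℝ} (hs0 : 0 ≤ s) (hs1 : s ≤ 1)
    (k : ℕ) :
    (P (Sym2 (Fin n)) ν).real {x | ∀ b ∈ B, b ∈ nb x a v ∧ k < #(nb x a b)} ≤
      Real.exp (-(s * (#B * (k + 1) - #B * #B))) * ((ν.real (Set.Iic a)) ^ #B *
        Real.exp (#B * n * ((ν.real (Set.Iic a)) * (s + s ^ 2)))) := by
  classical
  have h0 : 0 ≤ (ν.real (Set.Iic a)) := measureReal_nonneg
  have h1 : (ν.real (Set.Iic a)) ≤ 1 := measureReal_le_one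
  set E := B.image fun b => s(v, b) with hE
  have hEcard : #E = #B := by
    rw [hE, Finset.card_image_of_injective]
    intro l m h
    have h' : s(v, l) = s(v, m) := h
    rw [Sym2.eq_iff] at h'
    rcases h' with h' | h'
    · exact h'.2
    · rw [h'.2, h'.1]
  have hdisj : ∀ e ∈ E, e ∉ outer v B := by
    intro e he ho
    rw [hE, Finset.mem_image] at he
    unfold outer at ho
    rw [Finset.mem_image] at ho
    obtain ⟨b, hb, rfl⟩ := he
    obtain ⟨⟨c, w⟩, hcw, hcw2⟩ := ho
    rw [Finset.mem_product, Finset.mem_compl, Finset.mem_insert] at hcw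
    have h' : s(c, w) = s(v, b) := hcw2
    rw [Sym2.eq_iff] at h'
    rcases h' with h' | h'
    · exact hv (h'.1 ▸ hcw.1)
    · exact hcw.2 (Or.inl h'.2)
  refine (prob_le ν (le_refl a)
    (fun e => if e ∈ outer v B then Real.exp s else 1) (fun _ => 1)
    (fun e => if e ∈ E then 0 else 1) (fun e => by split_ifs <;> positivity)
    (fun _ => zero_le_one) (fun e => by split_ifs <;> norm_num)
    (K := Real.exp (-(s * (#B * (k + 1) - #B * #B)))) (Real.exp_pos _).le _ ?_).trans ?_
  · intro x hx
    have hprod : ∏ e, stp a a (if e ∈ outer v B then Real.exp s else 1) 1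
        (if e ∈ E then 0 else 1) (x e) =
        ∏ e, stp a a (if e ∈ outer v B then Real.exp s else 1) 1 1 (x e) := by
      refine Finset.prod_congr rfl fun e _ => ?_
      unfold stp
      by_cases h2 : x e ≤ a
      · simp [h2]
      · have : e ∉ E := by
          intro he
          rw [hE, Finset.mem_image] at he
          obtain ⟨b, hb, rfl⟩ := he
          exact h2 (mem_nb.1 (hx b hb).1).2
        simp [h2, this]
    rw [hprod, stp_count, ← Real.exp_nat_mul, ← Real.exp_add]
    refine le_trans (le_of_eq Real.exp_zero.symm) (Real.exp_le_exp.2 ?_)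
    have h2 := outer_count (v := v) (a := a) (fun b hb => (hx b hb).2)
    have h3 : (#B * (k + 1) : ℝ) ≤ #((outer v B).filter fun e => x e ≤ a) + #B * #B := by
      exact_mod_cast h2
    have h4 := mul_le_mul_of_nonneg_left h3 hs0
    linarith
  · refine mul_le_mul_of_nonneg_left ?_ (Real.exp_pos _).le
    have h2 : ∀ e : Sym2 (Fin n), (ν.real (Set.Iic a)) * (if e ∈ outer v B then Real.exp s else 1) +
        ((ν.real (Set.Iic a)) - (ν.real (Set.Iic a))) * 1 + (1 - (ν.real (Set.Iic a))) * (if e ∈ E then 0 else 1) =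
        (if e ∈ E then (ν.real (Set.Iic a)) else 1) *
          (if e ∈ outer v B then 1 + (ν.real (Set.Iic a)) * (Real.exp s - 1) else 1) := by
      intro e
      by_cases he : e ∈ E
      · simp [he, hdisj e he]
      · by_cases ho : e ∈ outer v B
        · simp [he, ho]; ring
        · simp [he, ho]
    rw [Finset.prod_congr rfl fun e _ => h2 e, Finset.prod_mul_distrib, prod_ite_pow,
      prod_ite_pow, hEcard]
    refine mul_le_mul_of_nonneg_left ?_ (pow_nonneg h0 _)
    have h3 : Real.exp s - 1 ≤ s + s ^ 2 := by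
      have := (abs_le.1 (Real.abs_exp_sub_one_sub_id_le (x := s)
        (by rw [abs_of_nonneg hs0]; exact hs1))).2
      linarith
    have h3' : 0 ≤ Real.exp s - 1 := by
      have := Real.add_one_le_exp s
      linarith
    have h4 : 1 + (ν.real (Set.Iic a)) * (Real.exp s - 1) ≤ Real.exp ((ν.real (Set.Iic a)) * (s + s ^ 2)) := by
      have h5 := Real.add_one_le_exp ((ν.real (Set.Iic a)) * (s + s ^ 2))
      have h6 := mul_le_mul_of_nonneg_left h3 h0
      linarith
    have h5 : 0 ≤ (ν.real (Set.Iic a)) * (s + s ^ 2) := mul_nonneg h0 (by positivity)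
    have h6 : (#(outer v B) : ℝ) ≤ #B * n := by exact_mod_cast card_outer_le v B
    calc (1 + (ν.real (Set.Iic a)) * (Real.exp s - 1)) ^ #(outer v B)
        ≤ Real.exp ((ν.real (Set.Iic a)) * (s + s ^ 2)) ^ #(outer v B) :=
          pow_le_pow_left₀ (by have := mul_nonneg h0 h3'; linarith) h4 _
      _ = Real.exp (#(outer v B) * ((ν.real (Set.Iic a)) * (s + s ^ 2))) := by rw [← Real.exp_nat_mul]
      _ ≤ _ := Real.exp_le_exp.2 (mul_le_mul_of_nonneg_right h6 h5)

lemma prob_not_conn_le {k C : ℕ} (hC : C < k) (hn : 0 < n) {u s : ℝ} (hu : 0 ≤ u) (hs0 : 0 ≤ s)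
    (hs1 : s ≤ 1) :
    (P (Sym2 (Fin n)) ν).real {x | ¬ (mutualPref k x).Connected} ≤
      ∑ S ∈ (univ : Finset (Finset (Fin n))).filter (fun S => 0 < #S ∧ 2 * #S ≤ n),
        Real.exp (u * (C * #S) - (ν.real (Set.Iic a)) * (1 - Real.exp (-u)) * (#S * (n - #S : ℕ))) +
      n * (n ^ (C + 1) * (Real.exp (-(s * ((C + 1) * (k + 1) - (C + 1) * (C + 1)))) *
        ((ν.real (Set.Iic a)) ^ (C + 1) * Real.exp ((C + 1) * n * ((ν.real (Set.Iic a)) * (s + s ^ 2)))))) := by
  classical
  have h0 : 0 ≤ (ν.real (Set.Iic a)) := measureReal_nonneg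
  set A1 : Finset (Fin n) → Set (Sym2 (Fin n) → ℝ) := fun S =>
    {x | #((cross S).filter fun e => x e ≤ a) ≤ C * #S} with hA1
  set A2 : Fin n → Finset (Fin n) → Set (Sym2 (Fin n) → ℝ) := fun v B =>
    {x | ∀ b ∈ B, b ∈ nb x a v ∧ k < #(nb x a b)} with hA2
  have hsub : {x : Sym2 (Fin n) → ℝ | ¬ (mutualPref k x).Connected} ⊆
      (⋃ S ∈ (univ : Finset (Finset (Fin n))).filter (fun S => 0 < #S ∧ 2 * #S ≤ n), A1 S) ∪
      (⋃ v ∈ (univ : Finset (Fin n)), ⋃ B ∈ (univ.erase v).powersetCard (C + 1), A2 v B) := by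
    intro x hx
    by_contra hcon
    rw [Set.mem_union, not_or] at hcon
    apply hx
    refine conn_of (C := C) hC hn (a := a) ?_ ?_
    · intro v
      by_contra hv
      apply hcon.2
      obtain ⟨B, hB1, hB2⟩ := Finset.exists_subset_card_eq (Nat.succ_le_of_lt (not_le.1 hv))
      rw [Set.mem_iUnion₂]
      refine ⟨v, mem_univ v, ?_⟩
      rw [Set.mem_iUnion₂]
      refine ⟨B, ?_, ?_⟩
      · rw [Finset.mem_powersetCard]
        refine ⟨?_, hB2⟩
        intro b hb
        have := hB1 hb
        unfold abn at this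
        rw [mem_filter, mem_nb] at this
        exact Finset.mem_erase.2 ⟨this.1.1, mem_univ _⟩
      · intro b hb
        have := hB1 hb
        unfold abn at this
        rw [mem_filter] at this
        exact this
    · intro S hS1 hS2
      by_contra hS
      apply hcon.1
      rw [Set.mem_iUnion₂]
      exact ⟨S, by simp only [mem_filter, mem_univ, true_and]; exact ⟨hS1, hS2⟩, not_lt.1 hS⟩
  refine (measureReal_mono hsub).trans ((measureReal_union_le _ _).trans (add_le_add ?_ ?_))
  · refine (measureReal_biUnion_finset_le _ _).trans (Finset.sum_le_sum fun S _ => ?_)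
    exact prob_bad1 ν S hu C
  · refine (measureReal_biUnion_finset_le _ _).trans ?_
    have h1 : ∀ v ∈ (univ : Finset (Fin n)), (P (Sym2 (Fin n)) ν).real
        (⋃ B ∈ (univ.erase v).powersetCard (C + 1), A2 v B) ≤
        n ^ (C + 1) * (Real.exp (-(s * ((C + 1) * (k + 1) - (C + 1) * (C + 1)))) *
        ((ν.real (Set.Iic a)) ^ (C + 1) * Real.exp ((C + 1) * n * ((ν.real (Set.Iic a)) * (s + s ^ 2))))) := by
      intro v _
      refine (measureReal_biUnion_finset_le _ _).trans ?_
      have h2 : ∀ B ∈ (univ.erase v).powersetCard (C + 1), (P (Sym2 (Fin n)) ν).real (A2 v B) ≤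
          Real.exp (-(s * ((C + 1) * (k + 1) - (C + 1) * (C + 1)))) *
        ((ν.real (Set.Iic a)) ^ (C + 1) * Real.exp ((C + 1) * n * ((ν.real (Set.Iic a)) * (s + s ^ 2)))) := by
        intro B hB
        rw [Finset.mem_powersetCard] at hB
        have hv : v ∉ B := fun hc => (Finset.mem_erase.1 (hB.1 hc)).1 rfl
        have := prob_bad2 ν (a := a) v B hv hs0 hs1 k
        rw [hB.2] at this
        push_cast at this
        exact this
      refine (Finset.sum_le_sum h2).trans ?_
      rw [Finset.sum_const, nsmul_eq_mul, Finset.card_powersetCard]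
      refine mul_le_mul_of_nonneg_right ?_ (by positivity)
      have h3 : (#(univ.erase v)).choose (C + 1) ≤ n ^ (C + 1) := by
        rw [Finset.card_erase_of_mem (mem_univ v), Finset.card_univ, Fintype.card_fin]
        exact (Nat.choose_le_pow _ _).trans (Nat.pow_le_pow_left (by omega) _)
      exact_mod_cast h3
    refine (Finset.sum_le_sum h1).trans (le_of_eq ?_)
    rw [Finset.sum_const, nsmul_eq_mul, Finset.card_univ, Fintype.card_fin]

end Pool.Agent.V11328.MK
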