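import Pool.Agent.V11328.MK.Up
import Pool.Agent.V11328.MK.LowLim

/-! The mutual preference graph above the threshold: the limit. -/

open MeasureTheory ProbabilityTheory Finset Filter
open scoped Topology

namespace Pool.Agent.V11328.MK

/-- The bound for one set. -/
lemma one_set {n : ℕ} {κ u L p C : ℝ} (hκ0 : 0 < κ) (hκ1 : κ ≤ 1) (hL0 : 0 < L) (hn : 0 < n)
    (hp : n * p = (1 + κ) * L) (hu : Real.exp (-u) = κ / 8)
    (hL1 : 8 * (u * C) ≤ L) (hL2 : 128 ≤ κ * L) {s : ℕ} (hs : 2 * s ≤ n) :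
    Real.exp (u * (C * s) - p * (1 - Real.exp (-u)) * (s * (n - s : ℕ))) ≤
      Real.exp (u * C - (1 + κ / 2) * L) ^ s + Real.exp (-(2 * n)) := by
  have hn0 : (0 : ℝ) < n := by exact_mod_cast hn
  have hsn : s ≤ n := by omega
  have hcast : ((n - s : ℕ) : ℝ) = n - s := by push_cast [Nat.cast_sub hsn]; ring
  have hs2 : 2 * (s : ℝ) ≤ n := by exact_mod_cast hs
  have hs0 : (0 : ℝ) ≤ s := Nat.cast_nonneg s
  have hp0 : 0 ≤ p := by
    by_contra hcon
    have : (n : ℝ) * p < 0 := mul_neg_of_pos_of_neg hn0 (not_le.1 hcon)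
    have h2 : 0 < (1 + κ) * L := by positivity
    linarith
  rw [hcast, hu]
  by_cases hcase : (s : ℝ) ≤ κ / 8 * n
  · -- small sets
    have h1 : (1 + κ / 2) * L * s ≤ p * (1 - κ / 8) * (s * (n - s)) := by
      have h2 : (n : ℝ) * (1 - κ / 8) ≤ n - s := by linarith
      have h3 : p * (1 - κ / 8) * (s * (n * (1 - κ / 8))) ≤ p * (1 - κ / 8) * (s * (n - s)) := by
        have h4 : 0 ≤ p * (1 - κ / 8) := mul_nonneg hp0 (by linarith)
        exact mul_le_mul_of_nonneg_left (mul_le_mul_of_nonneg_left h2 hs0) h4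
      refine le_trans ?_ h3
      have h5 : p * (1 - κ / 8) * (s * (n * (1 - κ / 8))) =
          ((1 + κ) * (1 - κ / 8) ^ 2) * (L * s) := by
        calc p * (1 - κ / 8) * (s * (n * (1 - κ / 8))) = (n * p) * (1 - κ / 8) ^ 2 * s := by ring
          _ = _ := by rw [hp]; ring
      rw [h5]
      have h6 : 1 + κ / 2 ≤ (1 + κ) * (1 - κ / 8) ^ 2 := by nlinarith [mul_pos hκ0 hκ0]
      have h7 : 0 ≤ L * s := by positivity
      have h8 := mul_le_mul_of_nonneg_right h6 h7
      linarith
    have h2 : Real.exp (u * (C * s) - p * (1 - κ / 8) * (s * (n - s))) ≤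
        Real.exp (u * C - (1 + κ / 2) * L) ^ s := by
      rw [← Real.exp_nat_mul]
      apply Real.exp_le_exp.2
      linarith
    have h3 := Real.exp_pos (-(2 * (n : ℝ)))
    linarith
  · -- large sets
    have hcase' := (not_le.1 hcase).le
    have h1 : L / 4 * s ≤ p * (1 - κ / 8) * (s * (n - s)) := by
      have h2 : (n : ℝ) / 2 ≤ n - s := by linarith
      have h3 : p * (1 - κ / 8) * (s * (n / 2)) ≤ p * (1 - κ / 8) * (s * (n - s)) := by
        have h4 : 0 ≤ p * (1 - κ / 8) := mul_nonneg hp0 (by linarith)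
        exact mul_le_mul_of_nonneg_left (mul_le_mul_of_nonneg_left h2 hs0) h4
      refine le_trans ?_ h3
      have h5 : p * (1 - κ / 8) * (s * (n / 2)) = ((1 + κ) * (1 - κ / 8) / 2) * (L * s) := by
        calc p * (1 - κ / 8) * (s * (n / 2)) = (n * p) * (1 - κ / 8) / 2 * s := by ring
          _ = _ := by rw [hp]; ring
      rw [h5]
      have h6 : 1 / 4 ≤ (1 + κ) * (1 - κ / 8) / 2 := by nlinarith
      have h7 : 0 ≤ L * s := by positivity
      have h8 := mul_le_mul_of_nonneg_right h6 h7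
      linarith
    have h2 : u * (C * s) - p * (1 - κ / 8) * (s * (n - s)) ≤ -(2 * n) := by
      have h3 : u * (C * s) ≤ L / 8 * s := by
        have := mul_le_mul_of_nonneg_right hL1 hs0
        linarith
      have h4 : (κ * L) / 64 * n ≤ L / 8 * s := by
        have := mul_le_mul_of_nonneg_left hcase' (by positivity : 0 ≤ L / 8)
        linarith
      have h5 : 2 * (n : ℝ) ≤ (κ * L) / 64 * n := by
        have := mul_le_mul_of_nonneg_right hL2 hn0.le
        linarith
      linarith
    have h3 : (0:ℝ) ≤ Real.exp (u * C - (1 + κ / 2) * L) ^ s := by positivity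
    have h4 := Real.exp_le_exp.2 h2
    linarith

lemma sum_sets {n : ℕ} {f : Finset (Fin n) → ℝ} {r : ℝ} (hr : 0 ≤ r)
    (hf : ∀ S, 2 * #S ≤ n → f S ≤ r ^ #S + Real.exp (-(2 * n))) :
    ∑ S ∈ (univ : Finset (Finset (Fin n))).filter (fun S => 0 < #S ∧ 2 * #S ≤ n), f S ≤
      (Real.exp (n * r) - 1) + Real.exp (-(n : ℝ)) := by
  classical
  have h1 : ∑ S ∈ (univ : Finset (Finset (Fin n))).filter (fun S => 0 < #S ∧ 2 * #S ≤ n), f S ≤
      ∑ S ∈ (univ : Finset (Finset (Fin n))).erase ∅, (r ^ #S + Real.exp (-(2 * n))) := by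
    refine (Finset.sum_le_sum fun S hS => hf S (Finset.mem_filter.1 hS).2.2).trans ?_
    refine Finset.sum_le_sum_of_subset_of_nonneg ?_ fun S _ _ => by positivity
    intro S hS
    rw [Finset.mem_filter] at hS
    refine Finset.mem_erase.2 ⟨?_, mem_univ _⟩
    rintro rfl
    simp at hS
  refine h1.trans ?_
  rw [Finset.sum_add_distrib]
  refine add_le_add ?_ ?_
  · have h2 : ∑ S ∈ (univ : Finset (Finset (Fin n))).erase ∅, r ^ #S =
        (∑ S : Finset (Fin n), r ^ #S) - 1 := by
      have := Finset.add_sum_erase (univ : Finset (Finset (Fin n))) (fun S => r ^ #S)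
        (mem_univ ∅)
      simp only [Finset.card_empty, pow_zero] at this
      linarith
    have h3 : ∑ S : Finset (Fin n), r ^ #S = (r + 1) ^ n := by
      have := Fintype.sum_pow_mul_eq_add_pow (Fin n) r 1
      simpa using this
    rw [h2, h3]
    have h4 : (r + 1) ^ n ≤ Real.exp (n * r) := by
      rw [Real.exp_nat_mul]
      exact pow_le_pow_left₀ (by linarith) (Real.add_one_le_exp r) n
    linarith
  · have h2 : ∑ _S ∈ (univ : Finset (Finset (Fin n))).erase ∅, Real.exp (-(2 * (n : ℝ))) ≤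
        ∑ _S : Finset (Fin n), Real.exp (-(2 * (n : ℝ))) :=
      Finset.sum_le_sum_of_subset_of_nonneg (Finset.erase_subset _ _) fun _ _ _ => by positivity
    refine h2.trans ?_
    rw [Finset.sum_const, nsmul_eq_mul, Finset.card_univ, Fintype.card_finset, Fintype.card_fin]
    have h3 : ((2 ^ n : ℕ) : ℝ) ≤ Real.exp n := by
      push_cast
      have h4 : (2 : ℝ) ≤ Real.exp 1 := by
        have := Real.add_one_le_exp 1
        linarith
      calc (2 : ℝ) ^ n ≤ Real.exp 1 ^ n := pow_le_pow_left₀ (by norm_num) h4 n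
        _ = Real.exp n := by rw [← Real.exp_nat_mul]; simp
    calc ((2 ^ n : ℕ) : ℝ) * Real.exp (-(2 * n)) ≤ Real.exp n * Real.exp (-(2 * n)) :=
          mul_le_mul_of_nonneg_right h3 (Real.exp_pos _).le
      _ = Real.exp (-(n : ℝ)) := by rw [← Real.exp_add]; congr 1; ring

/-- The second term. -/
lemma second_term {n : ℕ} {l L p s c K : ℝ} {C : ℕ} (hl : 0 < l) (hs0 : 0 ≤ s) (hs1 : s ≤ 1)
    (hL0 : 0 ≤ L) (hnL : (n : ℝ) = Real.exp L) (hp : n * p = l * L)
    (hs : l * s ≤ (c - l) / 2) (hK : c * L ≤ K + 1) (hC : 2 ≤ (C + 1) * (s * ((c - l) / 2))) :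
    n * (n ^ (C + 1) * (Real.exp (-(s * ((C + 1) * (K + 1) - (C + 1) * (C + 1)))) *
        (p ^ (C + 1) * Real.exp ((C + 1) * n * (p * (s + s ^ 2)))))) ≤
      l ^ (C + 1) * Real.exp ((C + 1) * (C + 1)) * (L ^ (C + 1) * Real.exp (-(1 * L))) := by
  have h1 : (n : ℝ) ^ (C + 1) * p ^ (C + 1) = l ^ (C + 1) * L ^ (C + 1) := by
    rw [← mul_pow, hp, mul_pow]
  have h2 : ((C : ℝ) + 1) * n * (p * (s + s ^ 2)) = (C + 1) * (l * L * (s + s ^ 2)) := by
    rw [← hp]; ring
  rw [h2]
  calc n * (n ^ (C + 1) * (Real.exp (-(s * ((C + 1) * (K + 1) - (C + 1) * (C + 1)))) *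
        (p ^ (C + 1) * Real.exp ((C + 1) * (l * L * (s + s ^ 2))))))
      = (n ^ (C + 1) * p ^ (C + 1)) * (n * (Real.exp (-(s * ((C + 1) * (K + 1) -
          (C + 1) * (C + 1)))) * Real.exp ((C + 1) * (l * L * (s + s ^ 2))))) := by ring
    _ = (l ^ (C + 1) * L ^ (C + 1)) * Real.exp (L + (-(s * ((C + 1) * (K + 1) -
          (C + 1) * (C + 1))) + (C + 1) * (l * L * (s + s ^ 2)))) := by
        rw [h1, hnL, Real.exp_add, Real.exp_add]
    _ ≤ (l ^ (C + 1) * L ^ (C + 1)) * Real.exp ((C + 1) * (C + 1) + -(1 * L)) := by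
        refine mul_le_mul_of_nonneg_left (Real.exp_le_exp.2 ?_) (by positivity)
        have hC0 : (0 : ℝ) ≤ C + 1 := by positivity
        have h3 : s * (c * L) ≤ s * (K + 1) := mul_le_mul_of_nonneg_left hK hs0
        have h4 : (C + 1 : ℝ) * (s * (c * L)) ≤ (C + 1) * (s * (K + 1)) :=
          mul_le_mul_of_nonneg_left h3 hC0
        have h5 : s * (((C : ℝ) + 1) * (C + 1)) ≤ 1 * (((C : ℝ) + 1) * (C + 1)) :=
          mul_le_mul_of_nonneg_right hs1 (by positivity)
        have h6 : (l * s) * (s * L) ≤ ((c - l) / 2) * (s * L) :=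
          mul_le_mul_of_nonneg_right hs (by positivity)
        have h7 : (C + 1 : ℝ) * ((l * s) * (s * L)) ≤ (C + 1) * (((c - l) / 2) * (s * L)) :=
          mul_le_mul_of_nonneg_left h6 hC0
        have h8 : 2 * L ≤ (C + 1) * (s * ((c - l) / 2)) * L := mul_le_mul_of_nonneg_right hC hL0
        linarith
    _ = _ := by rw [Real.exp_add]; ring

theorem up_limit {c : ℝ} (hc : 1 < c) :
    Tendsto (fun n : ℕ => (costs n).real {x | (mutualPref ⌊c * Real.log n⌋₊ x).Connected})
      atTop (𝓝 1) := by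
  set κ : ℝ := min ((c - 1) / 2) 1 with hκ
  have hκ0 : 0 < κ := lt_min (by linarith) one_pos
  have hκ1 : κ ≤ 1 := min_le_right _ _
  set l : ℝ := 1 + κ with hl
  have hlc : l < c := by
    have : κ ≤ (c - 1) / 2 := min_le_left _ _
    rw [hl]; linarith
  have hl0 : 0 < l := by rw [hl]; linarith
  set u : ℝ := Real.log (8 / κ) with hu
  have hu1 : Real.exp (-u) = κ / 8 := by
    rw [hu, Real.exp_neg, Real.exp_log (by positivity), inv_div]
  have hu0 : 0 ≤ u := by
    rw [hu]
    apply Real.log_nonneg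
    rw [le_div_iff₀ hκ0]
    linarith
  set s : ℝ := min 1 ((c - l) / (2 * l)) with hs
  have hs0 : 0 < s := lt_min one_pos (div_pos (by linarith) (by linarith))
  have hs1 : s ≤ 1 := min_le_left _ _
  have hls : l * s ≤ (c - l) / 2 := by
    have h1 : s ≤ (c - l) / (2 * l) := min_le_right _ _
    calc l * s ≤ l * ((c - l) / (2 * l)) := mul_le_mul_of_nonneg_left h1 hl0.le
      _ = (c - l) / 2 := by field_simp
  have hη : 0 < s * ((c - l) / 2) := mul_pos hs0 (by linarith)
  obtain ⟨C, hC⟩ := exists_nat_ge (2 / (s * ((c - l) / 2)))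
  have hC2 : 2 ≤ ((C : ℝ) + 1) * (s * ((c - l) / 2)) := by
    rw [div_le_iff₀ hη] at hC
    linarith
  set M : ℝ := l ^ (C + 1) * Real.exp ((C + 1) * (C + 1)) with hM
  have hlim : Tendsto (fun L : ℝ => (Real.exp (Real.exp (u * C) *
      (L ^ 0 * Real.exp (-(κ / 2 * L)))) - 1) + 1 * (L ^ 1 * Real.exp (-(1 * L))) +
      M * (L ^ (C + 1) * Real.exp (-(1 * L)))) atTop (𝓝 0) := by
    have h1 := (lim_pow_exp 0 (by linarith : (0:ℝ) < κ / 2)).const_mul (Real.exp (u * C))
    have h2 := (Real.continuous_exp.tendsto _).comp h1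
    have h3 := h2.sub_const 1
    have h4 := (lim_pow_exp 1 one_pos).const_mul 1
    have h5 := (lim_pow_exp (C + 1) one_pos).const_mul M
    have h6 := (h3.add h4).add h5
    simp only [mul_zero, Real.exp_zero, sub_self, add_zero] at h6
    exact h6
  have hlim' := hlim.comp tendsto_log_nat
  have hone : Tendsto (fun n : ℕ => 1 - ((fun L : ℝ => (Real.exp (Real.exp (u * C) *
      (L ^ 0 * Real.exp (-(κ / 2 * L)))) - 1) + 1 * (L ^ 1 * Real.exp (-(1 * L))) +
      M * (L ^ (C + 1) * Real.exp (-(1 * L)))) (Real.log n))) atTop (𝓝 1) := by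
    have := (tendsto_const_nhds (x := (1:ℝ))).sub hlim'
    simpa using this
  refine tendsto_of_tendsto_of_tendsto_of_le_of_le' hone tendsto_const_nhds ?_ ?_
  · have e1 := tendsto_log_nat.eventually_ge_atTop (8 * (u * C))
    have e2 := tendsto_log_nat.eventually_ge_atTop (128 / κ)
    have e3 := tendsto_log_nat.eventually_ge_atTop (((C : ℝ) + 2) / c)
    have e4 := tendsto_log_nat.eventually_ge_atTop 1
    filter_upwards [eventually_ge_atTop 4, eventually_log 1 (by positivity : 0 < 1 / (2 * l)),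
      e1, e2, e3, e4] with n hn h10 h1 h2 h3 h4
    have hn4 : (4 : ℝ) ≤ n := by exact_mod_cast hn
    have hn0 : (0 : ℝ) < n := by linarith
    have hnpos : 0 < n := by omega
    have hr : (0 : ℝ) < 1 / n := by positivity
    have := isProbabilityMeasure_expMeasure hr
    have hnL : (n : ℝ) = Real.exp (Real.log n) := (Real.exp_log hn0).symm
    set L := Real.log n with hL
    have hL0 : 0 < L := by linarith
    rw [pow_one] at h10
    set p := l * L / n with hp
    have hpn : n * p = l * L := by rw [hp]; field_simp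
    have hp0 : 0 ≤ p := by positivity
    have hp1 : p < 1 := by
      rw [hp, div_lt_one hn0]
      have h5 : l * L ≤ l * (1 / (2 * l) * n) := mul_le_mul_of_nonneg_left h10 hl0.le
      have h6 : l * (1 / (2 * l) * n) = n / 2 := by field_simp
      linarith
    have hpp : (expMeasure (1 / (n : ℝ))).real (Set.Iic (-Real.log (1 - p) / (1 / n))) = p :=
      exp_real_Iic hr hp0 hp1
    have hk1 : C < ⌊c * L⌋₊ := by
      rw [div_le_iff₀ (by linarith)] at h3
      have : C + 1 ≤ ⌊c * L⌋₊ := Nat.le_floor (by push_cast; linarith)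
      omega
    have hk2 : c * L ≤ (⌊c * L⌋₊ : ℝ) + 1 := (Nat.lt_floor_add_one _).le
    have hb := prob_not_conn_le (n := n) (expMeasure (1 / (n : ℝ)))
      (a := -Real.log (1 - p) / (1 / n)) hk1 hnpos hu0 hs0.le hs1
    rw [hpp] at hb
    have hsum := sum_sets (n := n) (r := Real.exp (u * C - (1 + κ / 2) * L))
      (f := fun S => Real.exp (u * (C * #S) - p * (1 - Real.exp (-u)) * (#S * (n - #S : ℕ))))
      (Real.exp_pos _).le (fun S hS => one_set hκ0 hκ1 hL0 hnpos hpn hu1 h1
        (by rw [div_le_iff₀ hκ0] at h2; linarith) hS)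
    have hsec := second_term (C := C) hl0 hs0.le hs1 hL0.le hnL hpn hls hk2 hC2
    have hnr : (n : ℝ) * Real.exp (u * C - (1 + κ / 2) * L) =
        Real.exp (u * C) * (L ^ 0 * Real.exp (-(κ / 2 * L))) := by
      conv_lhs => rw [hnL]
      rw [← Real.exp_add, pow_zero, one_mul, ← Real.exp_add]
      congr 1
      ring
    rw [hnr] at hsum
    have hexp : Real.exp (-(n : ℝ)) ≤ 1 * (L ^ 1 * Real.exp (-(1 * L))) := by
      rw [one_mul, pow_one, one_mul]
      have h5 : L ≤ n := by
        have := Real.log_le_sub_one_of_pos hn0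
        linarith
      have h6 : Real.exp (-(n : ℝ)) ≤ Real.exp (-L) := Real.exp_le_exp.2 (by linarith)
      have h7 : 1 * Real.exp (-L) ≤ L * Real.exp (-L) :=
        mul_le_mul_of_nonneg_right h4 (Real.exp_pos _).le
      linarith
    have hcompl : 1 ≤ (costs n).real {x | (mutualPref ⌊c * L⌋₊ x).Connected} +
        (costs n).real {x | ¬ (mutualPref ⌊c * L⌋₊ x).Connected} := by
      have : IsProbabilityMeasure (costs n) := by unfold costs; infer_instance
      have h5 := measureReal_union_le (μ := costs n)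
        {x | (mutualPref ⌊c * L⌋₊ x).Connected} {x | ¬ (mutualPref ⌊c * L⌋₊ x).Connected}
      have h6 : {x : Sym2 (Fin n) → ℝ | (mutualPref ⌊c * L⌋₊ x).Connected} ∪
          {x | ¬ (mutualPref ⌊c * L⌋₊ x).Connected} = Set.univ := by
        ext x
        simp only [Set.mem_union, Set.mem_setOf_eq, Set.mem_univ, iff_true]
        exact em _
      rw [h6, probReal_univ] at h5
      exact h5
    have hcost : costs n = P (Sym2 (Fin n)) (expMeasure (1 / (n : ℝ))) := rfl
    rw [← hcost] at hb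
    refine sub_le_iff_le_add.2 (hcompl.trans (add_le_add_right ?_ _))
    refine hb.trans ?_
    show _ ≤ (Real.exp (Real.exp (u * C) *
      (L ^ 0 * Real.exp (-(κ / 2 * L)))) - 1) + 1 * (L ^ 1 * Real.exp (-(1 * L))) +
      M * (L ^ (C + 1) * Real.exp (-(1 * L)))
    exact add_le_add (hsum.trans (add_le_add le_rfl hexp)) hsec
  · filter_upwards [eventually_ge_atTop 4] with n hn
    have hn4 : (4 : ℝ) ≤ n := by exact_mod_cast hn
    have hr : (0 : ℝ) < 1 / n := by positivity
    have := isProbabilityMeasure_expMeasure hr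
    have : IsProbabilityMeasure (costs n) := by unfold costs; infer_instance
    exact measureReal_le_one

end Pool.Agent.V11328.MK
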